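import Mathlib

/-!
# A graph whose saturation numbers oscillate

`H` is a graph on 477 vertices, given as a blow-up: 14 classes of vertices, each class is a clique,
and two different classes are completely joined or not joined at all.  We write `s = 16` and
`m = 102`.  The important facts on `H`:

* for all adjacent `p, q` we have `deg p + codeg (p, q) ≥ 2 s + m + 1`, except for the vertices
  `x1, x2` of the classes `3` and `6`, where the sum is `2 s + m` and the common neighbourhood is a
  clique `S` of size `s` (classes `0, 1, 2`);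
* `H` embeds into the join of `K_s` with many copies of `K_m` plus an edge between two of them, and
  into the join of `K_s` with two different intersecting `K_m` and many more disjoint `K_m`, but not into
  the join of `K_s` with disjoint `K_m`.
-/

set_option autoImplicit false

namespace Pool.Agent.J6H1.Tuza

open Finset

/-- the sizes of the classes -/
def wt : Fin 14 → ℕ := ![8, 1, 7, 1, 3, 98, 1, 3, 98, 27, 34, 34, 94, 68]

/-- the pairs of joined classes -/
def edgeList : List (Fin 14 × Fin 14) :=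
  [(0,1),(0,2),(1,2),(0,3),(0,4),(1,3),(1,4),(2,3),(2,4),(0,6),(0,7),(1,6),(1,7),(2,6),(2,7),
   (3,4),(3,5),(4,5),(6,7),(6,8),(7,8),(3,6),(0,9),(0,10),(0,11),(9,10),(9,11),(1,12),(2,12),(1,13)]

/-- the reflexive closure of the relation of being joined -/
def rel (i j : Fin 14) : Bool := i == j || edgeList.contains (i, j) || edgeList.contains (j, i)

theorem rel_symm : ∀ i j, rel i j = rel j i := by decide

theorem rel_refl : ∀ i, rel i i = true := by decide

/-- the vertices of `H` -/
abbrev HV := Σ i : Fin 14, Fin (wt i)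

/-- the graph `H` -/
def H : SimpleGraph HV where
  Adj v w := v ≠ w ∧ rel v.1 w.1 = true
  symm := by
    constructor
    rintro v w ⟨h1, h2⟩
    exact ⟨h1.symm, by rw [rel_symm]; exact h2⟩
  loopless := by
    constructor
    rintro v ⟨h1, -⟩
    exact h1 rfl

theorem H_adj {v w : HV} : H.Adj v w ↔ v ≠ w ∧ rel v.1 w.1 = true := Iff.rfl

theorem card_class (p : Fin 14 → Prop) [DecidablePred p] :
    (univ.filter (fun v : HV => p v.1)).card = ∑ i ∈ univ.filter p, wt i := by
  have h : univ.filter (fun v : HV => p v.1)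
      = (univ.filter p).sigma (fun i => (univ : Finset (Fin (wt i)))) := by
    ext ⟨i, a⟩
    simp
  rw [h, Finset.card_sigma]
  simp

/-- sum of the sizes of the classes joined or equal to `i` -/
def s1 (i : Fin 14) : ℕ := ∑ k ∈ univ.filter (fun k => rel i k = true), wt k

/-- sum of the sizes of the classes joined or equal to both `i` and `j` -/
def s2 (i j : Fin 14) : ℕ := ∑ k ∈ univ.filter (fun k => rel i k = true ∧ rel j k = true), wt k

theorem weights : ∀ i j, rel i j = true → 138 ≤ s1 i + s2 i j ∨ (i = 3 ∧ j = 6) ∨ (i = 6 ∧ j = 3) := by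
  decide

/-- neighbours of `p` -/
def Np (p : HV) : Finset HV := univ.filter (fun w => w ≠ p ∧ rel p.1 w.1 = true)

/-- common neighbours of `p` and `q` -/
def Cpq (p q : HV) : Finset HV :=
  univ.filter (fun w => w ≠ p ∧ w ≠ q ∧ rel p.1 w.1 = true ∧ rel q.1 w.1 = true)

theorem mem_Np {p w : HV} : w ∈ Np p ↔ H.Adj p w := by
  simp only [Np, mem_filter, mem_univ, true_and, H_adj]
  constructor
  · rintro ⟨h1, h2⟩; exact ⟨h1.symm, h2⟩
  · rintro ⟨h1, h2⟩; exact ⟨h1.symm, h2⟩

theorem mem_Cpq {p q w : HV} : w ∈ Cpq p q ↔ H.Adj p w ∧ H.Adj q w := by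
  simp only [Cpq, mem_filter, mem_univ, true_and, H_adj]
  constructor
  · rintro ⟨h1, h2, h3, h4⟩; exact ⟨⟨h1.symm, h3⟩, ⟨h2.symm, h4⟩⟩
  · rintro ⟨⟨h1, h3⟩, ⟨h2, h4⟩⟩; exact ⟨h1.symm, h2.symm, h3, h4⟩

theorem card_Np (p : HV) : (Np p).card + 1 = s1 p.1 := by
  have h1 : Np p = (univ.filter (fun v : HV => rel p.1 v.1 = true)).erase p := by
    ext w
    simp [Np]
  have h2 : p ∈ univ.filter (fun v : HV => rel p.1 v.1 = true) := by simp [rel_refl]
  rw [h1, Finset.card_erase_add_one h2]
  exact card_class (fun k => rel p.1 k = true)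

theorem card_Cpq (p q : HV) (h : H.Adj p q) : (Cpq p q).card + 2 = s2 p.1 q.1 := by
  have h1 : Cpq p q =
      ((univ.filter (fun v : HV => rel p.1 v.1 = true ∧ rel q.1 v.1 = true)).erase p).erase q := by
    ext w
    simp only [Cpq, mem_filter, mem_univ, true_and, mem_erase]
    tauto
  have h2 : p ∈ univ.filter (fun v : HV => rel p.1 v.1 = true ∧ rel q.1 v.1 = true) := by
    simp only [mem_filter, mem_univ, true_and]
    exact ⟨rel_refl _, by rw [rel_symm]; exact h.2⟩
  have h3 : q ∈ (univ.filter (fun v : HV => rel p.1 v.1 = true ∧ rel q.1 v.1 = true)).erase p := by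
    simp only [mem_filter, mem_univ, true_and, mem_erase]
    exact ⟨h.1.symm, h.2, rel_refl _⟩
  have h4 := Finset.card_erase_add_one h3
  have h5 := Finset.card_erase_add_one h2
  rw [h1]
  have h6 := card_class (fun k => rel p.1 k = true ∧ rel q.1 k = true)
  unfold s2
  omega

/-- The container lemma: to embed `H` it is enough to distribute the classes to pairwise disjoint
sets which are large enough. -/
theorem container {W ι : Type*} [DecidableEq ι] (R : W → W → Prop)
    (α : Fin 14 → ι) (C : ι → Finset W)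
    (hdis : ∀ i j, α i ≠ α j → Disjoint (C (α i)) (C (α j)))
    (hcard : ∀ i, ∑ k ∈ univ.filter (fun k => α k = α i), wt k ≤ (C (α i)).card)
    (hadj : ∀ i j, rel i j = true → ∀ x ∈ C (α i), ∀ y ∈ C (α j), x ≠ y → R x y) :
    ∃ f : HV → W, Function.Injective f ∧ ∀ a b, H.Adj a b → R (f a) (f b) := by
  classical
  have hemb : ∀ j : ι, (∃ i, α i = j) →
      Nonempty ({v : HV // α v.1 = j} ↪ {w : W // w ∈ C j}) := by
    rintro j ⟨i, rfl⟩
    apply Function.Embedding.nonempty_of_card_le
    rw [Fintype.card_coe, Fintype.card_subtype, card_class (fun k => α k = α i)]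
    exact hcard i
  obtain ⟨e, -⟩ : ∃ _e : ∀ j : ι, (∃ i, α i = j) → ({v : HV // α v.1 = j} ↪ {w : W // w ∈ C j}), True :=
    ⟨fun j hj => (hemb j hj).some, trivial⟩
  let f : HV → W := fun v => (e (α v.1) ⟨v.1, rfl⟩ ⟨v, rfl⟩ : {w : W // w ∈ C (α v.1)}).1
  have hfC : ∀ v, f v ∈ C (α v.1) := fun v => (e (α v.1) ⟨v.1, rfl⟩ ⟨v, rfl⟩).2
  have hf : ∀ (j : ι) (v : HV) (hj : ∃ i, α i = j) (h : α v.1 = j), f v = (e j hj ⟨v, h⟩ : {w : W // w ∈ C j}).1 := by
    intro j v hj h
    subst h
    rfl
  have hinj : Function.Injective f := by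
    intro v w hvw
    by_cases h : α v.1 = α w.1
    · have h1 := hf (α w.1) v ⟨w.1, rfl⟩ h
      have h2 := hf (α w.1) w ⟨w.1, rfl⟩ rfl
      rw [h1, h2] at hvw
      have h3 := (e (α w.1) ⟨w.1, rfl⟩).injective (Subtype.ext hvw)
      simpa using h3
    · exfalso
      have h1 := hfC v
      have h2 := hfC w
      rw [hvw] at h1
      exact (Finset.disjoint_left.mp (hdis v.1 w.1 h)) h1 h2
  refine ⟨f, hinj, fun a b hab => ?_⟩
  exact hadj a.1 b.1 hab.2 _ (hfC a) _ (hfC b) (fun h => hab.1 (hinj h))

/-- `G` contains `H` -/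
def Contains {W : Type*} (G : SimpleGraph W) : Prop :=
  ∃ f : HV → W, Function.Injective f ∧ ∀ a b, H.Adj a b → G.Adj (f a) (f b)

/-- `G` is `H`-saturated -/
structure Sat {W : Type*} (G : SimpleGraph W) : Prop where
  free : ¬ Contains G
  sat : ∀ u v : W, u ≠ v → ¬ G.Adj u v → ∃ f : HV → W, Function.Injective f ∧
    ∀ a b, H.Adj a b → G.Adj (f a) (f b) ∨ (f a = u ∧ f b = v) ∨ (f a = v ∧ f b = u)

end Pool.Agent.J6H1.Tuza
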