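import Pool.Agent.J6H1.Tuza.Defs

/-!
# The local structure of an `H`-saturated graph at a pair of non-adjacent vertices
-/

set_option autoImplicit false

namespace Pool.Agent.J6H1.Tuza

open Finset

variable {W : Type*} [Fintype W] [DecidableEq W]

/-- The structure which `u, v` have if the edge `uv` plays the role of the exceptional edge of `H`:
a clique of 16 common neighbours and two cliques of size 102 at `u` and at `v`. -/
def GoodPair (G : SimpleGraph W) [DecidableRel G.Adj] (u v : W) : Prop :=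
  ∃ A K K' : Finset W, A.card = 16 ∧ A ⊆ G.neighborFinset u ∩ G.neighborFinset v ∧
    (∀ x ∈ A, ∀ y ∈ A, x ≠ y → G.Adj x y) ∧
    K.card = 102 ∧ u ∈ K ∧ Disjoint K A ∧ (∀ x ∈ K, ∀ y ∈ K, x ≠ y → G.Adj x y) ∧
    K'.card = 102 ∧ v ∈ K' ∧ Disjoint K' A ∧ (∀ x ∈ K', ∀ y ∈ K', x ≠ y → G.Adj x y)

/-- the vertices with class in a given list -/
def cls (l : List (Fin 14)) : Finset HV := univ.filter (fun w => w.1 ∈ l)

theorem mem_cls {l : List (Fin 14)} {w : HV} : w ∈ cls l ↔ w.1 ∈ l := by simp [cls]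

theorem card_cls (l : List (Fin 14)) : (cls l).card = ∑ i ∈ univ.filter (fun i => i ∈ l), wt i :=
  card_class (fun i => i ∈ l)

theorem good_of (G : SimpleGraph W) [DecidableRel G.Adj] (f : HV → W) (hf : Function.Injective f)
    (p q : HV) (key : ∀ a b, H.Adj a b → ¬ (a = p ∧ b = q) → ¬ (a = q ∧ b = p) → G.Adj (f a) (f b))
    (lp lq : List (Fin 14)) (hp : p.1 ∈ lp) (hq : q.1 ∈ lq) (hpl : p.1 ∉ lq) (hql : q.1 ∉ lp)
    (hA : ∀ k ∈ ([0, 1, 2] : List (Fin 14)), rel p.1 k = true ∧ rel q.1 k = true ∧ k ≠ p.1 ∧ k ≠ q.1)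
    (hlp : ∀ i ∈ lp, ∀ j ∈ lp, rel i j = true) (hlq : ∀ i ∈ lq, ∀ j ∈ lq, rel i j = true)
    (hdp : ∀ i ∈ lp, i ∉ ([0, 1, 2] : List (Fin 14))) (hdq : ∀ i ∈ lq, i ∉ ([0, 1, 2] : List (Fin 14)))
    (hcp : ∑ i ∈ univ.filter (fun i => i ∈ lp), wt i = 102)
    (hcq : ∑ i ∈ univ.filter (fun i => i ∈ lq), wt i = 102) : GoodPair G (f p) (f q) := by
  have clq : ∀ l : List (Fin 14), (p.1 ∉ l ∨ q.1 ∉ l) → (∀ i ∈ l, ∀ j ∈ l, rel i j = true) →
      ∀ x ∈ (cls l).image f, ∀ y ∈ (cls l).image f, x ≠ y → G.Adj x y := by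
    intro l hl hrel x hx y hy hxy
    rw [mem_image] at hx hy
    obtain ⟨a, ha, rfl⟩ := hx
    obtain ⟨b, hb, rfl⟩ := hy
    rw [mem_cls] at ha hb
    refine key a b ⟨fun h => hxy (by rw [h]), hrel _ ha _ hb⟩ ?_ ?_
    · rintro ⟨rfl, rfl⟩
      rcases hl with h | h
      · exact h ha
      · exact h hb
    · rintro ⟨rfl, rfl⟩
      rcases hl with h | h
      · exact h hb
      · exact h ha
  have dis : ∀ l : List (Fin 14), (∀ i ∈ l, i ∉ ([0, 1, 2] : List (Fin 14))) →
      Disjoint ((cls l).image f) ((cls [0, 1, 2]).image f) := by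
    intro l hl
    rw [Finset.disjoint_left]
    intro x hx hy
    rw [mem_image] at hx hy
    obtain ⟨a, ha, rfl⟩ := hx
    obtain ⟨b, hb, hab⟩ := hy
    rw [mem_cls] at ha hb
    rw [hf hab] at hb
    exact hl _ ha hb
  refine ⟨(cls [0, 1, 2]).image f, (cls lp).image f, (cls lq).image f, ?_, ?_, ?_, ?_, ?_, ?_, ?_,
    ?_, ?_, ?_, ?_⟩
  · rw [Finset.card_image_of_injective _ hf, card_cls]; decide
  · intro x hx
    rw [mem_image] at hx
    obtain ⟨a, ha, rfl⟩ := hx
    rw [mem_cls] at ha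
    obtain ⟨h1, h2, h3, h4⟩ := hA _ ha
    rw [mem_inter, SimpleGraph.mem_neighborFinset, SimpleGraph.mem_neighborFinset]
    constructor
    · refine key p a ⟨fun h => h3 (by rw [h]), h1⟩ ?_ ?_
      · rintro ⟨-, rfl⟩; exact h4 rfl
      · rintro ⟨-, rfl⟩; exact h3 rfl
    · refine key q a ⟨fun h => h4 (by rw [h]), h2⟩ ?_ ?_
      · rintro ⟨-, rfl⟩; exact h4 rfl
      · rintro ⟨-, rfl⟩; exact h3 rfl
  · refine clq _ (Or.inl fun h => (hA _ h).2.2.1 rfl) (by decide)
  · rw [Finset.card_image_of_injective _ hf, card_cls, hcp]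
  · exact mem_image_of_mem f (mem_cls.2 hp)
  · exact dis _ hdp
  · exact clq _ (Or.inr hql) hlp
  · rw [Finset.card_image_of_injective _ hf, card_cls, hcq]
  · exact mem_image_of_mem f (mem_cls.2 hq)
  · exact dis _ hdq
  · exact clq _ (Or.inl hpl) hlq

/-- The weight inequality: in an `H`-saturated graph non-adjacent vertices `u, v` have
`deg u + codeg (u, v) ≥ 134` or they are a good pair. -/
theorem local_pair (G : SimpleGraph W) [DecidableRel G.Adj] (hG : Sat G) {u v : W} (huv : u ≠ v)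
    (hn : ¬ G.Adj u v) :
    134 ≤ (G.neighborFinset u).card + (G.neighborFinset u ∩ G.neighborFinset v).card ∨
      GoodPair G u v := by
  obtain ⟨f, hf, h⟩ := hG.sat u v huv hn
  have hex : ∃ p q, H.Adj p q ∧ f p = u ∧ f q = v := by
    by_contra hne
    push Not at hne
    apply hG.free
    refine ⟨f, hf, fun a b hab => ?_⟩
    rcases h a b hab with h1 | ⟨h1, h2⟩ | ⟨h1, h2⟩
    · exact h1
    · exact absurd h2 (hne a b hab h1)
    · exact absurd h1 (hne b a hab.symm h2)
  obtain ⟨p, q, hpq, rfl, rfl⟩ := hex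
  have key : ∀ a b, H.Adj a b → ¬ (a = p ∧ b = q) → ¬ (a = q ∧ b = p) → G.Adj (f a) (f b) := by
    intro a b hab h1 h2
    rcases h a b hab with h3 | ⟨h3, h4⟩ | ⟨h3, h4⟩
    · exact h3
    · exact absurd ⟨hf h3, hf h4⟩ h1
    · exact absurd ⟨hf h3, hf h4⟩ h2
  have h1 : (Np p).card ≤ (G.neighborFinset (f p)).card + 1 := by
    have hq : q ∈ Np p := mem_Np.2 hpq
    have hsub : ((Np p).erase q).image f ⊆ G.neighborFinset (f p) := by
      intro x hx
      rw [mem_image] at hx
      obtain ⟨a, ha, rfl⟩ := hx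
      rw [mem_erase, mem_Np] at ha
      rw [SimpleGraph.mem_neighborFinset]
      refine key p a ha.2 (fun h => ha.1 h.2) ?_
      rintro ⟨h5, -⟩
      exact hpq.1 h5
    have h5 := Finset.card_le_card hsub
    rw [Finset.card_image_of_injective _ hf] at h5
    have h6 := Finset.card_erase_add_one hq
    omega
  have h2 : (Cpq p q).card ≤ (G.neighborFinset (f p) ∩ G.neighborFinset (f q)).card := by
    have hsub : (Cpq p q).image f ⊆ G.neighborFinset (f p) ∩ G.neighborFinset (f q) := by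
      intro x hx
      rw [mem_image] at hx
      obtain ⟨a, ha, rfl⟩ := hx
      rw [mem_Cpq] at ha
      rw [mem_inter, SimpleGraph.mem_neighborFinset, SimpleGraph.mem_neighborFinset]
      constructor
      · refine key p a ha.1 ?_ ?_
        · rintro ⟨-, rfl⟩; exact ha.2.1 rfl
        · rintro ⟨h5, -⟩; exact hpq.1 h5
      · refine key q a ha.2 ?_ ?_
        · rintro ⟨h5, -⟩; exact hpq.1 h5.symm
        · rintro ⟨-, rfl⟩; exact ha.1.1 rfl
    have h5 := Finset.card_le_card hsub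
    rwa [Finset.card_image_of_injective _ hf] at h5
  have h3 := card_Np p
  have h4 := card_Cpq p q hpq
  rcases weights p.1 q.1 hpq.2 with h5 | ⟨h5, h6⟩ | ⟨h5, h6⟩
  · left; omega
  · right
    apply good_of G f hf p q key [3, 4, 5] [6, 7, 8]
    · rw [h5]; decide
    · rw [h6]; decide
    · rw [h5]; decide
    · rw [h6]; decide
    · rw [h5, h6]; decide
    · decide
    · decide
    · decide
    · decide
    · decide
    · decide
  · right
    apply good_of G f hf p q key [6, 7, 8] [3, 4, 5]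
    · rw [h5]; decide
    · rw [h6]; decide
    · rw [h5]; decide
    · rw [h6]; decide
    · rw [h5, h6]; decide
    · decide
    · decide
    · decide
    · decide
    · decide
    · decide

end Pool.Agent.J6H1.Tuza
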