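import Pool.Agent.J6H1.Tuza.Local

/-!
# The lower bound

If an `H`-saturated graph on `n` vertices has at most `(133 / 2 + 1 / 2000) n` edges, `n` large, then
`n ≡ 16 mod 102`.
-/

set_option autoImplicit false

namespace Pool.Agent.J6H1.Tuza

open Finset

variable {W : Type*} [Fintype W] [DecidableEq W]

section

variable (G : SimpleGraph W) [DecidableRel G.Adj]

/-- vertices of large degree -/
def Hi : Finset W := univ.filter (fun v => 10000000 < (G.neighborFinset v).card)

/-- vertices of small degree -/
def Lo : Finset W := univ.filter (fun v => (G.neighborFinset v).card ≤ 10000000)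

/-- vertices which are near to `u` -/
def Near (u : W) : Finset W :=
  insert u (G.neighborFinset u ∪ (G.neighborFinset u ∩ Lo G).biUnion (fun w => G.neighborFinset w))

/-- the weight -/
def wgt (u : W) : ℕ := (G.neighborFinset u).card + (G.neighborFinset u ∩ Hi G).card

/-- the typical vertices -/
def Typ : Finset W := (Lo G).filter (fun u => wgt G u = 133)

/-- the remaining vertices of small degree -/
def Bad : Finset W := (Lo G).filter (fun u => 134 ≤ wgt G u)

/-- the low part of the closed neighbourhood of `u` -/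
def QQ (u : W) : Finset W := insert u (G.neighborFinset u \ Hi G)

theorem mem_Hi_or_Lo (v : W) : v ∈ Hi G ∨ v ∈ Lo G := by
  simp only [Hi, Lo, mem_filter, mem_univ, true_and]
  omega

theorem not_both {v : W} (h1 : v ∈ Hi G) (h2 : v ∈ Lo G) : False := by
  simp only [Hi, Lo, mem_filter, mem_univ, true_and] at h1 h2
  omega

theorem card_Near {u : W} (hu : u ∈ Lo G) : (Near G u).card ≤ 100000010000001 := by
  have h1 : (G.neighborFinset u).card ≤ 10000000 := (mem_filter.1 hu).2
  have h2 : ((G.neighborFinset u ∩ Lo G).biUnion (fun w => G.neighborFinset w)).card ≤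
      (G.neighborFinset u ∩ Lo G).card * 10000000 := by
    apply Finset.card_biUnion_le_card_mul
    intro w hw
    exact (mem_filter.1 (mem_inter.1 hw).2).2
  have h3 : (G.neighborFinset u ∩ Lo G).card ≤ (G.neighborFinset u).card :=
    Finset.card_le_card inter_subset_left
  have h4 : (Near G u).card ≤
      (G.neighborFinset u ∪ (G.neighborFinset u ∩ Lo G).biUnion (fun w => G.neighborFinset w)).card + 1 :=
    Finset.card_insert_le _ _
  have h5 : (G.neighborFinset u ∪ (G.neighborFinset u ∩ Lo G).biUnion (fun w => G.neighborFinset w)).card ≤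
      (G.neighborFinset u).card +
        ((G.neighborFinset u ∩ Lo G).biUnion (fun w => G.neighborFinset w)).card :=
    Finset.card_union_le _ _
  omega

theorem far {u v : W} (h : v ∉ Near G u) :
    u ≠ v ∧ ¬ G.Adj u v ∧
      G.neighborFinset u ∩ G.neighborFinset v ⊆ G.neighborFinset u ∩ Hi G := by
  simp only [Near, mem_insert, mem_union, mem_biUnion, mem_inter, SimpleGraph.mem_neighborFinset,
    not_or, not_exists, not_and] at h
  obtain ⟨h1, h2, h3⟩ := h
  refine ⟨fun h => h1 h.symm, h2, ?_⟩
  intro w hw
  rw [mem_inter, SimpleGraph.mem_neighborFinset, SimpleGraph.mem_neighborFinset] at hw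
  rw [mem_inter, SimpleGraph.mem_neighborFinset]
  refine ⟨hw.1, ?_⟩
  rcases mem_Hi_or_Lo G w with h4 | h4
  · exact h4
  · exact absurd hw.2.symm (h3 w ⟨hw.1, h4⟩)

/-- the degree sum dominates the sum of the weights of the low vertices -/
theorem sum_wgt_le : ∑ u ∈ Lo G, wgt G u ≤ ∑ v, (G.neighborFinset v).card := by
  have h1 : ∑ v, (G.neighborFinset v).card =
      ∑ v ∈ Lo G, (G.neighborFinset v).card + ∑ v ∈ Hi G, (G.neighborFinset v).card := by
    have h2 : (univ : Finset W) = Lo G ∪ Hi G := by
      ext v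
      simp only [mem_univ, mem_union, true_iff]
      exact (mem_Hi_or_Lo G v).symm
    rw [h2]
    exact Finset.sum_union (Finset.disjoint_left.2 fun v h3 h4 => not_both G h4 h3)
  rw [h1]
  simp only [wgt, Finset.sum_add_distrib]
  apply Nat.add_le_add_left
  have h3 : ∑ u ∈ Lo G, (G.neighborFinset u ∩ Hi G).card =
      ∑ a ∈ Hi G, ((Lo G).filter (fun u => a ∈ G.neighborFinset u)).card := by
    have h4 : ∀ u, (G.neighborFinset u ∩ Hi G).card =
        ((Hi G).filter (fun a => a ∈ G.neighborFinset u)).card := by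
      intro u
      congr 1
      ext a
      simp only [mem_inter, mem_filter]
      tauto
    simp only [h4]
    simp only [Finset.card_eq_sum_ones, Finset.sum_filter]
    exact Finset.sum_comm
  rw [h3]
  apply Finset.sum_le_sum
  intro a _
  apply Finset.card_le_card
  intro u hu
  rw [mem_filter] at hu
  rw [SimpleGraph.mem_neighborFinset] at hu ⊢
  exact hu.2.symm

theorem card_Hi_le : 10000001 * (Hi G).card ≤ ∑ v, (G.neighborFinset v).card := by
  calc 10000001 * (Hi G).card = ∑ v ∈ Hi G, 10000001 := by
        rw [Finset.sum_const, smul_eq_mul, mul_comm]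
    _ ≤ ∑ v ∈ Hi G, (G.neighborFinset v).card := by
        apply Finset.sum_le_sum
        intro v hv
        have : 10000000 < (G.neighborFinset v).card := (mem_filter.1 hv).2
        omega
    _ ≤ _ := Finset.sum_le_sum_of_subset (subset_univ _)

end

section

variable {G : SimpleGraph W} [DecidableRel G.Adj]

theorem wgt_ge (hG : Sat G) (hn : 1000000000000000 ≤ Fintype.card W) {u : W} (hu : u ∈ Lo G) :
    133 ≤ wgt G u := by
  have h1 := card_Near G hu
  obtain ⟨v, hv⟩ : ∃ v, v ∉ Near G u := by
    by_contra h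
    push Not at h
    have h2 : Fintype.card W ≤ (Near G u).card := by
      rw [← Finset.card_univ]
      exact Finset.card_le_card (fun v _ => h v)
    omega
  obtain ⟨h2, h3, h4⟩ := far G hv
  have h5 := Finset.card_le_card h4
  unfold wgt
  rcases local_pair G hG h2 h3 with h6 | ⟨A, K, K', hA, hAs, hAc, hK, huK, hKA, hKc, -⟩
  · omega
  · have h7 : A ∪ K.erase u ⊆ G.neighborFinset u := by
      intro x hx
      rw [mem_union] at hx
      rcases hx with hx | hx
      · exact (mem_inter.1 (hAs hx)).1
      · rw [mem_erase] at hx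
        rw [SimpleGraph.mem_neighborFinset]
        exact hKc u huK x hx.2 hx.1.symm
    have h8 : Disjoint A (K.erase u) :=
      (hKA.mono_left (Finset.erase_subset _ _)).symm
    have h9 := Finset.card_le_card h7
    rw [Finset.card_union_of_disjoint h8] at h9
    have h10 := Finset.card_erase_add_one huK
    have h11 := Finset.card_le_card hAs
    omega

/-- the structure at a typical vertex -/
theorem typ_far (hG : Sat G) {u v : W} (hu : u ∈ Typ G) (hv : v ∉ Near G u) :
    (G.neighborFinset u).card = 117 ∧ (G.neighborFinset u ∩ Hi G).card = 16 ∧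
      G.neighborFinset u ∩ G.neighborFinset v = G.neighborFinset u ∩ Hi G ∧
      (∀ x ∈ G.neighborFinset u ∩ Hi G, ∀ y ∈ G.neighborFinset u ∩ Hi G, x ≠ y → G.Adj x y) ∧
      (QQ G u).card = 102 ∧ (∀ x ∈ QQ G u, ∀ y ∈ QQ G u, x ≠ y → G.Adj x y) := by
  obtain ⟨h2, h3, h4⟩ := far G hv
  have h5 := Finset.card_le_card h4
  have hw : (G.neighborFinset u).card + (G.neighborFinset u ∩ Hi G).card = 133 :=
    (mem_filter.1 hu).2
  rcases local_pair G hG h2 h3 with h6 | ⟨A, K, K', hA, hAs, hAc, hK, huK, hKA, hKc, -⟩
  · omega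
  · have h7 : A ∪ K.erase u ⊆ G.neighborFinset u := by
      intro x hx
      rw [mem_union] at hx
      rcases hx with hx | hx
      · exact (mem_inter.1 (hAs hx)).1
      · rw [mem_erase] at hx
        rw [SimpleGraph.mem_neighborFinset]
        exact hKc u huK x hx.2 hx.1.symm
    have h8 : Disjoint A (K.erase u) :=
      (hKA.mono_left (Finset.erase_subset _ _)).symm
    have h9 := Finset.card_le_card h7
    rw [Finset.card_union_of_disjoint h8] at h9
    have h10 := Finset.card_erase_add_one huK
    have h11 := Finset.card_le_card hAs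
    have h12 : (G.neighborFinset u).card = 117 := by omega
    have h13 : (G.neighborFinset u ∩ Hi G).card = 16 := by omega
    have h14 : A = G.neighborFinset u ∩ G.neighborFinset v :=
      Finset.eq_of_subset_of_card_le hAs (by omega)
    have h15 : G.neighborFinset u ∩ G.neighborFinset v = G.neighborFinset u ∩ Hi G :=
      Finset.eq_of_subset_of_card_le h4 (by omega)
    have h16 : A = G.neighborFinset u ∩ Hi G := h14.trans h15
    have h17 : K.erase u = G.neighborFinset u \ Hi G := by
      apply Finset.eq_of_subset_of_card_le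
      · intro x hx
        rw [mem_sdiff]
        refine ⟨h7 (mem_union_right _ hx), fun h => ?_⟩
        have : x ∈ A := by
          rw [h16, mem_inter]
          exact ⟨h7 (mem_union_right _ hx), h⟩
        exact Finset.disjoint_left.1 h8 this hx
      · have h18 := Finset.card_sdiff_add_card_inter (G.neighborFinset u) (Hi G)
        omega
    have h19 : QQ G u = K := by
      unfold QQ
      rw [← h17, Finset.insert_erase huK]
    refine ⟨h12, h13, h15, ?_, ?_, ?_⟩
    · rw [← h16]; exact hAc
    · rw [h19]; exact hK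
    · rw [h19]; exact hKc

/-- the counting argument: there are many full vertices -/
theorem many_full (hG : Sat G) (hn : 1000000000000000 ≤ Fintype.card W)
    (he : 1000 * ∑ v, (G.neighborFinset v).card ≤ 133001 * Fintype.card W) :
    Fintype.card W ≤
      2 * ((Typ G).filter (fun u => ∀ w ∈ G.neighborFinset u \ Hi G, w ∈ Typ G)).card := by
  set T := ∑ v, (G.neighborFinset v).card with hT
  have h1 := card_Hi_le G
  rw [← hT] at h1
  have h2 : (Lo G).card + (Hi G).card = Fintype.card W := by
    rw [← Finset.card_union_of_disjoint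
      (Finset.disjoint_left.2 fun v h3 h4 => not_both G h4 h3), ← Finset.card_univ]
    congr 1
    ext v
    simp only [mem_univ, mem_union, iff_true]
    exact (mem_Hi_or_Lo G v).symm
  have hdisj : Disjoint (Typ G) (Bad G) := by
    rw [Finset.disjoint_left]
    intro v h3 h4
    have h5 := (mem_filter.1 h3).2
    have h6 := (mem_filter.1 h4).2
    omega
  have hun : Typ G ∪ Bad G = Lo G := by
    ext v
    simp only [Typ, Bad, mem_union, mem_filter]
    constructor
    · rintro (h | h) <;> exact h.1
    · intro h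
      have := wgt_ge hG hn h
      rcases Nat.lt_or_ge (wgt G v) 134 with h5 | h5
      · left; exact ⟨h, by omega⟩
      · right; exact ⟨h, h5⟩
  have h3 : (Typ G).card + (Bad G).card = (Lo G).card := by
    rw [← Finset.card_union_of_disjoint hdisj, hun]
  have h4 : 133 * (Typ G).card + ∑ b ∈ Bad G, wgt G b ≤ T := by
    have h5 := sum_wgt_le G
    rw [← hun, Finset.sum_union hdisj] at h5
    have h6 : ∑ b ∈ Typ G, wgt G b = 133 * (Typ G).card := by
      have h7 : ∑ b ∈ Typ G, wgt G b = ∑ b ∈ Typ G, 133 :=
        Finset.sum_congr rfl (fun b hb => (mem_filter.1 hb).2)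
      rw [h7, Finset.sum_const, smul_eq_mul, mul_comm]
    omega
  have h5 : 134 * (Bad G).card ≤ ∑ b ∈ Bad G, wgt G b := by
    calc 134 * (Bad G).card = ∑ b ∈ Bad G, 134 := by
          rw [Finset.sum_const, smul_eq_mul, mul_comm]
      _ ≤ _ := Finset.sum_le_sum fun b hb => (mem_filter.1 hb).2
  have h6 : (Typ G).card ≤
      ((Typ G).filter (fun u => ∀ w ∈ G.neighborFinset u \ Hi G, w ∈ Typ G)).card +
        ∑ b ∈ Bad G, wgt G b := by
    have h7 : Typ G ⊆ ((Typ G).filter (fun u => ∀ w ∈ G.neighborFinset u \ Hi G, w ∈ Typ G)) ∪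
        (Bad G).biUnion (fun b => G.neighborFinset b) := by
      intro u hu
      rw [mem_union]
      by_cases h : ∀ w ∈ G.neighborFinset u \ Hi G, w ∈ Typ G
      · left; exact mem_filter.2 ⟨hu, h⟩
      · right
        push Not at h
        obtain ⟨w, hw1, hw2⟩ := h
        rw [mem_sdiff] at hw1
        rw [mem_biUnion]
        refine ⟨w, ?_, ?_⟩
        · have h8 : w ∈ Lo G := by
            rcases mem_Hi_or_Lo G w with h | h
            · exact absurd h hw1.2
            · exact h
          rw [← hun, mem_union] at h8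
          rcases h8 with h8 | h8
          · exact absurd h8 hw2
          · exact h8
        · rw [SimpleGraph.mem_neighborFinset] at hw1 ⊢
          exact hw1.1.symm
    have h8 := Finset.card_le_card h7
    have h9 : ((Bad G).biUnion (fun b => G.neighborFinset b)).card ≤
        ∑ b ∈ Bad G, (G.neighborFinset b).card := Finset.card_biUnion_le
    have h10 : ∑ b ∈ Bad G, (G.neighborFinset b).card ≤ ∑ b ∈ Bad G, wgt G b :=
      Finset.sum_le_sum fun b _ => Nat.le_add_right _ _
    have h11 := Finset.card_union_le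
      ((Typ G).filter (fun u => ∀ w ∈ G.neighborFinset u \ Hi G, w ∈ Typ G))
      ((Bad G).biUnion (fun b => G.neighborFinset b))
    omega
  omega

/-- `H` embeds if there are two different intersecting cliques of size 102 and four more disjoint
ones, all joined to a clique of size 16. -/
theorem contains_of_cliques (A K1 K2 Q1 Q2 Q3 Q4 : Finset W)
    (hA : A.card = 16) (hAc : ∀ x ∈ A, ∀ y, x ≠ y → G.Adj x y)
    (hK1 : K1.card = 102) (hK2 : K2.card = 102)
    (hK1c : ∀ x ∈ K1, ∀ y ∈ K1, x ≠ y → G.Adj x y) (hK2c : ∀ x ∈ K2, ∀ y ∈ K2, x ≠ y → G.Adj x y)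
    (hK1A : Disjoint K1 A) (hK2A : Disjoint K2 A)
    (hne : K1 ≠ K2) (hint : (K1 ∩ K2).Nonempty)
    (hQ1 : Q1.card = 102) (hQ2 : Q2.card = 102) (hQ3 : Q3.card = 102) (hQ4 : Q4.card = 102)
    (hQ1c : ∀ x ∈ Q1, ∀ y ∈ Q1, x ≠ y → G.Adj x y) (hQ2c : ∀ x ∈ Q2, ∀ y ∈ Q2, x ≠ y → G.Adj x y)
    (hQ3c : ∀ x ∈ Q3, ∀ y ∈ Q3, x ≠ y → G.Adj x y) (hQ4c : ∀ x ∈ Q4, ∀ y ∈ Q4, x ≠ y → G.Adj x y)
    (hQ1A : Disjoint Q1 A) (hQ2A : Disjoint Q2 A) (hQ3A : Disjoint Q3 A) (hQ4A : Disjoint Q4 A)
    (hQ1K1 : Disjoint Q1 K1) (hQ1K2 : Disjoint Q1 K2) (hQ2K1 : Disjoint Q2 K1) (hQ2K2 : Disjoint Q2 K2)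
    (hQ3K1 : Disjoint Q3 K1) (hQ3K2 : Disjoint Q3 K2) (hQ4K1 : Disjoint Q4 K1) (hQ4K2 : Disjoint Q4 K2)
    (hQ12 : Disjoint Q1 Q2) (hQ13 : Disjoint Q1 Q3) (hQ14 : Disjoint Q1 Q4) (hQ23 : Disjoint Q2 Q3)
    (hQ24 : Disjoint Q2 Q4) (hQ34 : Disjoint Q3 Q4) : Contains G := by
  have hinter : (K1 ∩ K2).card < 102 := by
    rcases Nat.lt_or_ge (K1 ∩ K2).card 102 with h | h
    · exact h
    · exfalso
      apply hne
      have h1 : K1 ∩ K2 = K1 := Finset.eq_of_subset_of_card_le inter_subset_left (by omega)
      have h2 : K1 ∩ K2 = K2 := Finset.eq_of_subset_of_card_le inter_subset_right (by omega)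
      rw [← h1, h2]
  have hs1 := Finset.card_sdiff_add_card_inter K1 K2
  have hs2 := Finset.card_sdiff_add_card_inter K2 K1
  rw [Finset.inter_comm K2 K1] at hs2
  rcases Nat.lt_or_ge (K1 ∩ K2).card 35 with hi | hi
  · -- small intersection
    obtain ⟨c, hc⟩ := hint
    have hc1 : c ∈ K1 := (mem_inter.1 hc).1
    have hc2 : c ∈ K2 := (mem_inter.1 hc).2
    have hce := Finset.card_erase_add_one hc1
    let C : Fin 7 → Finset W := ![A, {c}, K1.erase c, K2 \ K1, Q1, Q2, Q3]
    let α : Fin 14 → Fin 7 := ![0, 1, 2, 0, 0, 4, 0, 0, 5, 6, 6, 6, 2, 3]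
    have hcA : c ∉ A := fun h => Finset.disjoint_left.1 hK1A hc1 h
    have hKe : K1.erase c ⊆ K1 := Finset.erase_subset _ _
    have hKs : K2 \ K1 ⊆ K2 := Finset.sdiff_subset
    have hsing : ∀ X : Finset W, Disjoint X K1 → Disjoint X {c} := by
      intro X hX
      rw [Finset.disjoint_singleton_right]
      exact fun h => Finset.disjoint_left.1 hX h hc1
    have d01 : Disjoint A {c} := by rw [Finset.disjoint_singleton_right]; exact hcA
    have d02 : Disjoint A (K1.erase c) := (hK1A.mono_left hKe).symm
    have d03 : Disjoint A (K2 \ K1) := (hK2A.mono_left hKs).symm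
    have d12 : Disjoint {c} (K1.erase c) := by
      rw [Finset.disjoint_singleton_left]; exact Finset.notMem_erase c K1
    have d13 : Disjoint {c} (K2 \ K1) := by
      rw [Finset.disjoint_singleton_left, mem_sdiff]; exact fun h => h.2 hc1
    have d23 : Disjoint (K1.erase c) (K2 \ K1) :=
      (Finset.disjoint_sdiff).mono_left hKe
    have hdis : ∀ i j : Fin 7, i < j → Disjoint (C i) (C j) := by
      intro i j hij
      fin_cases i <;> fin_cases j <;> first
        | exact absurd hij (by decide)
        | exact d01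
        | exact d02
        | exact d03
        | exact hQ1A.symm
        | exact hQ2A.symm
        | exact hQ3A.symm
        | exact d12
        | exact d13
        | exact (hsing _ hQ1K1).symm
        | exact (hsing _ hQ2K1).symm
        | exact (hsing _ hQ3K1).symm
        | exact d23
        | exact (hQ1K1.mono_right hKe).symm
        | exact (hQ2K1.mono_right hKe).symm
        | exact (hQ3K1.mono_right hKe).symm
        | exact (hQ1K2.mono_right hKs).symm
        | exact (hQ2K2.mono_right hKs).symm
        | exact (hQ3K2.mono_right hKs).symm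
        | exact hQ12
        | exact hQ13
        | exact hQ23
    apply container G.Adj α C
    · intro i j hij
      rcases lt_or_gt_of_ne hij with h | h
      · exact hdis _ _ h
      · exact (hdis _ _ h).symm
    · have hcard : ∀ j : Fin 7, (![16, 1, 101, 68, 98, 98, 95] : Fin 7 → ℕ) j ≤ (C j).card := by
        intro j
        fin_cases j
        · change 16 ≤ A.card; omega
        · change 1 ≤ ({c} : Finset W).card; simp
        · change 101 ≤ (K1.erase c).card; omega
        · change 68 ≤ (K2 \ K1).card; omega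
        · change 98 ≤ Q1.card; omega
        · change 98 ≤ Q2.card; omega
        · change 95 ≤ Q3.card; omega
      have hsum : ∀ i : Fin 14, ∑ k ∈ univ.filter (fun k => α k = α i), wt k ≤
          (![16, 1, 101, 68, 98, 98, 95] : Fin 7 → ℕ) (α i) := by
        decide
      intro i
      exact (hsum i).trans (hcard _)
    · have hcomp : ∀ i j : Fin 14, rel i j = true → α i = 0 ∨ α j = 0 ∨ α i = α j ∨
          (α i = 1 ∧ α j = 2) ∨ (α i = 2 ∧ α j = 1) ∨ (α i = 1 ∧ α j = 3) ∨ (α i = 3 ∧ α j = 1) := by
        decide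
      have hclq : ∀ j : Fin 7, ∀ x ∈ C j, ∀ y ∈ C j, x ≠ y → G.Adj x y := by
        intro j
        fin_cases j
        · exact fun x hx y _ hxy => hAc x hx y hxy
        · intro x hx y hy hxy
          exact absurd ((Finset.mem_singleton.1 hx).trans (Finset.mem_singleton.1 hy).symm) hxy
        · exact fun x hx y hy hxy => hK1c x (hKe hx) y (hKe hy) hxy
        · exact fun x hx y hy hxy => hK2c x (hKs hx) y (hKs hy) hxy
        · exact hQ1c
        · exact hQ2c
        · exact hQ3c
      intro i j hij x hx y hy hxy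
      rcases hcomp i j hij with h | h | h | ⟨h1, h2⟩ | ⟨h1, h2⟩ | ⟨h1, h2⟩ | ⟨h1, h2⟩
      · rw [h] at hx
        exact hAc x hx y hxy
      · rw [h] at hy
        exact (hAc y hy x hxy.symm).symm
      · rw [h] at hx
        exact hclq _ x hx y hy hxy
      · rw [h1] at hx; rw [h2] at hy
        exact hK1c x ((Finset.mem_singleton.1 hx) ▸ hc1) y (hKe hy) hxy
      · rw [h1] at hx; rw [h2] at hy
        exact hK1c x (hKe hx) y ((Finset.mem_singleton.1 hy) ▸ hc1) hxy
      · rw [h1] at hx; rw [h2] at hy
        exact hK2c x ((Finset.mem_singleton.1 hx) ▸ hc2) y (hKs hy) hxy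
      · rw [h1] at hx; rw [h2] at hy
        exact hK2c x (hKs hx) y ((Finset.mem_singleton.1 hy) ▸ hc2) hxy
  · -- large intersection
    obtain ⟨J, hJs, hJ⟩ := Finset.exists_subset_card_eq hi
    have hJ1 : J ⊆ K1 := hJs.trans inter_subset_left
    have hJ2 : J ⊆ K2 := hJs.trans inter_subset_right
    obtain ⟨y0, hy0⟩ : (K1 \ K2).Nonempty := by
      rw [← Finset.card_pos]; omega
    rw [mem_sdiff] at hy0
    have hy0J : y0 ∉ J := fun h => hy0.2 (hJ2 h)
    have hc1 : ((K1 \ J).erase y0).card = 66 := by
      have h1 : y0 ∈ K1 \ J := mem_sdiff.2 ⟨hy0.1, hy0J⟩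
      have h2 := Finset.card_erase_add_one h1
      have h3 := Finset.card_sdiff_add_card_inter K1 J
      rw [Finset.inter_eq_right.2 hJ1] at h3
      omega
    obtain ⟨P0, hP0s, hP0⟩ := Finset.exists_subset_card_eq (show 33 ≤ ((K1 \ J).erase y0).card by omega)
    have hy0P : y0 ∉ P0 := fun h => (Finset.notMem_erase y0 _) (hP0s h)
    set P := insert y0 P0 with hP
    have hPc : P.card = 34 := by rw [hP, Finset.card_insert_of_notMem hy0P, hP0]
    have hP1 : P ⊆ K1 \ J := by
      intro x hx
      rw [hP, mem_insert] at hx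
      rcases hx with rfl | hx
      · exact mem_sdiff.2 ⟨hy0.1, hy0J⟩
      · exact Finset.erase_subset _ _ (hP0s hx)
    have hPK : P ⊆ K1 := hP1.trans Finset.sdiff_subset
    have hc2 : 34 ≤ ((K2 \ J) \ P).card := by
      have h3 := Finset.card_sdiff_add_card_inter K2 J
      rw [Finset.inter_eq_right.2 hJ2] at h3
      have h4 := Finset.card_sdiff_add_card_inter (K2 \ J) P
      have h5 : ((K2 \ J) ∩ P).card ≤ 33 := by
        have h6 : (K2 \ J) ∩ P ⊆ P0 := by
          intro x hx
          rw [mem_inter, mem_sdiff, hP, mem_insert] at hx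
          rcases hx.2 with rfl | h
          · exact absurd hx.1.1 hy0.2
          · exact h
        exact (Finset.card_le_card h6).trans hP0.le
      omega
    obtain ⟨P', hP's, hP'⟩ := Finset.exists_subset_card_eq hc2
    have hP'K : P' ⊆ K2 := hP's.trans (Finset.sdiff_subset.trans Finset.sdiff_subset)
    let C : Fin 8 → Finset W := ![A, J, P, P', Q1, Q2, Q3, Q4]
    let α : Fin 14 → Fin 8 := ![1, 0, 0, 0, 0, 4, 0, 0, 5, 1, 2, 3, 6, 7]
    have d01 : Disjoint A J := (hK1A.mono_left hJ1).symm
    have d02 : Disjoint A P := (hK1A.mono_left hPK).symm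
    have d03 : Disjoint A P' := (hK2A.mono_left hP'K).symm
    have d12 : Disjoint J P := by
      rw [Finset.disjoint_left]
      intro x hx hx'
      exact (mem_sdiff.1 (hP1 hx')).2 hx
    have d13 : Disjoint J P' := by
      rw [Finset.disjoint_left]
      intro x hx hx'
      exact (mem_sdiff.1 (mem_sdiff.1 (hP's hx')).1).2 hx
    have d23 : Disjoint P P' := by
      rw [Finset.disjoint_left]
      intro x hx hx'
      exact (mem_sdiff.1 (hP's hx')).2 hx
    have hdis : ∀ i j : Fin 8, i < j → Disjoint (C i) (C j) := by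
      intro i j hij
      fin_cases i <;> fin_cases j <;> first
        | exact absurd hij (by decide)
        | exact d01
        | exact d02
        | exact d03
        | exact hQ1A.symm
        | exact hQ2A.symm
        | exact hQ3A.symm
        | exact hQ4A.symm
        | exact d12
        | exact d13
        | exact (hQ1K1.mono_right hJ1).symm
        | exact (hQ2K1.mono_right hJ1).symm
        | exact (hQ3K1.mono_right hJ1).symm
        | exact (hQ4K1.mono_right hJ1).symm
        | exact d23
        | exact (hQ1K1.mono_right hPK).symm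
        | exact (hQ2K1.mono_right hPK).symm
        | exact (hQ3K1.mono_right hPK).symm
        | exact (hQ4K1.mono_right hPK).symm
        | exact (hQ1K2.mono_right hP'K).symm
        | exact (hQ2K2.mono_right hP'K).symm
        | exact (hQ3K2.mono_right hP'K).symm
        | exact (hQ4K2.mono_right hP'K).symm
        | exact hQ12
        | exact hQ13
        | exact hQ14
        | exact hQ23
        | exact hQ24
        | exact hQ34
    apply container G.Adj α C
    · intro i j hij
      rcases lt_or_gt_of_ne hij with h | h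
      · exact hdis _ _ h
      · exact (hdis _ _ h).symm
    · have hcard : ∀ j : Fin 8, (![16, 35, 34, 34, 98, 98, 94, 68] : Fin 8 → ℕ) j ≤ (C j).card := by
        intro j
        fin_cases j
        · change 16 ≤ A.card; omega
        · change 35 ≤ J.card; omega
        · change 34 ≤ P.card; omega
        · change 34 ≤ P'.card; omega
        · change 98 ≤ Q1.card; omega
        · change 98 ≤ Q2.card; omega
        · change 94 ≤ Q3.card; omega
        · change 68 ≤ Q4.card; omega
      have hsum : ∀ i : Fin 14, ∑ k ∈ univ.filter (fun k => α k = α i), wt k ≤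
          (![16, 35, 34, 34, 98, 98, 94, 68] : Fin 8 → ℕ) (α i) := by
        decide
      intro i
      exact (hsum i).trans (hcard _)
    · have hcomp : ∀ i j : Fin 14, rel i j = true → α i = 0 ∨ α j = 0 ∨ α i = α j ∨
          (α i = 1 ∧ α j = 2) ∨ (α i = 2 ∧ α j = 1) ∨ (α i = 1 ∧ α j = 3) ∨ (α i = 3 ∧ α j = 1) := by
        decide
      have hclq : ∀ j : Fin 8, ∀ x ∈ C j, ∀ y ∈ C j, x ≠ y → G.Adj x y := by
        intro j
        fin_cases j
        · exact fun x hx y _ hxy => hAc x hx y hxy
        · exact fun x hx y hy hxy => hK1c x (hJ1 hx) y (hJ1 hy) hxy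
        · exact fun x hx y hy hxy => hK1c x (hPK hx) y (hPK hy) hxy
        · exact fun x hx y hy hxy => hK2c x (hP'K hx) y (hP'K hy) hxy
        · exact hQ1c
        · exact hQ2c
        · exact hQ3c
        · exact hQ4c
      intro i j hij x hx y hy hxy
      rcases hcomp i j hij with h | h | h | ⟨h1, h2⟩ | ⟨h1, h2⟩ | ⟨h1, h2⟩ | ⟨h1, h2⟩
      · rw [h] at hx
        exact hAc x hx y hxy
      · rw [h] at hy
        exact (hAc y hy x hxy.symm).symm
      · rw [h] at hx
        exact hclq _ x hx y hy hxy
      · rw [h1] at hx; rw [h2] at hy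
        exact hK1c x (hJ1 hx) y (hPK hy) hxy
      · rw [h1] at hx; rw [h2] at hy
        exact hK1c x (hPK hx) y (hJ1 hy) hxy
      · rw [h1] at hx; rw [h2] at hy
        exact hK2c x (hJ2 hx) y (hP'K hy) hxy
      · rw [h1] at hx; rw [h2] at hy
        exact hK2c x (hP'K hx) y (hJ2 hy) hxy

end

end Pool.Agent.J6H1.Tuza
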