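import Pool.Agent.J6H1.Tuza.Lower

/-!
# The structure of `H`-saturated graphs with few edges
-/

set_option autoImplicit false

namespace Pool.Agent.J6H1.Tuza

open Finset

variable {W : Type*} [Fintype W] [DecidableEq W]

/-- the full vertices -/
def Ful (G : SimpleGraph W) [DecidableRel G.Adj] : Finset W :=
  (Typ G).filter (fun u => ∀ w ∈ G.neighborFinset u \ Hi G, w ∈ Typ G)

variable {G : SimpleGraph W} [DecidableRel G.Adj]

theorem typ_lo {u : W} (hu : u ∈ Typ G) : u ∈ Lo G := (mem_filter.1 hu).1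

/-- two typical vertices far from each other have the same high neighbours -/
theorem typ_eq (hG : Sat G) {u v : W} (hu : u ∈ Typ G) (hv : v ∈ Typ G) (h : v ∉ Near G u)
    (h' : ∃ w, w ∉ Near G v) :
    G.neighborFinset u ∩ Hi G = G.neighborFinset v ∩ Hi G := by
  obtain ⟨-, h2, h3, -, -, -⟩ := typ_far hG hu h
  obtain ⟨w, hw⟩ := h'
  obtain ⟨-, h5, -, -, -, -⟩ := typ_far hG hv hw
  apply Finset.eq_of_subset_of_card_le
  · rw [← h3]
    intro x hx
    have hx2 : x ∈ G.neighborFinset u ∩ Hi G := by rw [← h3]; exact hx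
    exact mem_inter.2 ⟨(mem_inter.1 hx).2, (mem_inter.1 hx2).2⟩
  · omega

/-- **Structure theorem.** -/
theorem structure_thm (hG : Sat G) (hn : 1000000000000000 ≤ Fintype.card W)
    (he : 1000 * ∑ v, (G.neighborFinset v).card ≤ 133001 * Fintype.card W) :
    ∃ t : ℕ, Fintype.card W = 16 + 102 * t := by
  have hfull : Fintype.card W ≤ 2 * (Ful G).card := many_full hG hn he
  have hft : Ful G ⊆ Typ G := Finset.filter_subset _ _
  have hftc := Finset.card_le_card hft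
  -- there are vertices far from one or two low vertices
  have hfar2 : ∀ u ∈ Lo G, ∀ u' ∈ Lo G, ∃ v ∈ Typ G, v ∉ Near G u ∧ v ∉ Near G u' := by
    intro u hu u' hu'
    by_contra h
    push Not at h
    have h1 : Typ G ⊆ Near G u ∪ Near G u' := by
      intro v hv
      rw [mem_union]
      by_cases h2 : v ∈ Near G u
      · left; exact h2
      · right; exact h v hv h2
    have h2 := Finset.card_le_card h1
    have h3 := Finset.card_union_le (Near G u) (Near G u')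
    have h4 := card_Near G hu
    have h5 := card_Near G hu'
    omega
  have hfar1 : ∀ u ∈ Lo G, ∃ v, v ∉ Near G u := by
    intro u hu
    obtain ⟨v, -, hv, -⟩ := hfar2 u hu u hu
    exact ⟨v, hv⟩
  -- the common set of high neighbours
  obtain ⟨u0, hu0⟩ : (Ful G).Nonempty := by
    rw [← Finset.card_pos]; omega
  have hu0t := hft hu0
  obtain ⟨A, hA⟩ : ∃ A, A = G.neighborFinset u0 ∩ Hi G := ⟨_, rfl⟩
  have hAeq : ∀ u ∈ Typ G, G.neighborFinset u ∩ Hi G = A := by
    intro u hu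
    obtain ⟨v, hv, h1, h2⟩ := hfar2 u (typ_lo hu) u0 (typ_lo hu0t)
    rw [typ_eq hG hu hv h1 (hfar1 v (typ_lo hv)), hA, typ_eq hG hu0t hv h2 (hfar1 v (typ_lo hv))]
  have htyp : ∀ u ∈ Typ G, (G.neighborFinset u).card = 117 ∧ (QQ G u).card = 102 ∧
      (∀ x ∈ QQ G u, ∀ y ∈ QQ G u, x ≠ y → G.Adj x y) := by
    intro u hu
    obtain ⟨v, hv⟩ := hfar1 u (typ_lo hu)
    obtain ⟨h1, h2, h3, h4, h5, h6⟩ := typ_far hG hu hv
    exact ⟨h1, h5, h6⟩
  obtain ⟨hAc, hAq⟩ : A.card = 16 ∧ (∀ x ∈ A, ∀ y ∈ A, x ≠ y → G.Adj x y) := by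
    obtain ⟨v, hv⟩ := hfar1 u0 (typ_lo hu0t)
    obtain ⟨h1, h2, h3, h4, h5, h6⟩ := typ_far hG hu0t hv
    rw [hA]
    exact ⟨h2, h4⟩
  -- typical vertices are not in `A`
  have hAH : ∀ x ∈ A, x ∈ Hi G := by
    intro x hx
    rw [hA] at hx
    exact (mem_inter.1 hx).2
  have hself : ∀ u, u ∈ QQ G u := fun u => mem_insert_self _ _
  have hQlo : ∀ u ∈ Typ G, ∀ x ∈ QQ G u, x ∉ Hi G := by
    intro u hu x hx hx'
    unfold QQ at hx
    rw [mem_insert, mem_sdiff] at hx
    rcases hx with rfl | hx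
    · exact not_both G hx' (typ_lo hu)
    · exact hx.2 hx'
  have hQA : ∀ u ∈ Typ G, Disjoint (QQ G u) A := by
    intro u hu
    rw [Finset.disjoint_left]
    exact fun x hx hx' => hQlo u hu x hx (hAH x hx')
  -- members of `QQ G u` for full `u`
  have hQtyp : ∀ u ∈ Ful G, ∀ w ∈ QQ G u, w ∈ Typ G := by
    intro u hu w hw
    unfold QQ at hw
    rw [mem_insert] at hw
    rcases hw with rfl | hw
    · exact hft hu
    · exact (mem_filter.1 hu).2 w hw
  -- a neighbour of a typical vertex is in `A` or in `QQ`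
  have hnb : ∀ w ∈ Typ G, ∀ x, G.Adj w x → x ∈ A ∨ x ∈ QQ G w := by
    intro w hw x hx
    by_cases h : x ∈ Hi G
    · left
      rw [← hAeq w hw, mem_inter, SimpleGraph.mem_neighborFinset]
      exact ⟨hx, h⟩
    · right
      unfold QQ
      rw [mem_insert, mem_sdiff, SimpleGraph.mem_neighborFinset]
      exact Or.inr ⟨hx, h⟩
  -- a clique of size 102 outside `A` containing `w` is `QQ G w`
  have hclq : ∀ w ∈ Typ G, ∀ K : Finset W, K.card = 102 → Disjoint K A → w ∈ K →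
      (∀ x ∈ K, ∀ y ∈ K, x ≠ y → G.Adj x y) → K = QQ G w := by
    intro w hw K hK hKA hwK hKc
    apply Finset.eq_of_subset_of_card_le
    · intro x hx
      by_cases hxw : x = w
      · rw [hxw]; exact hself w
      · rcases hnb w hw x (hKc w hwK x hx (Ne.symm hxw)) with h | h
        · exact absurd h (Finset.disjoint_left.1 hKA hx)
        · exact h
    · rw [(htyp w hw).2.1, hK]
  have hQeq : ∀ u ∈ Ful G, ∀ w ∈ QQ G u, QQ G u = QQ G w := by
    intro u hu w hw
    exact hclq w (hQtyp u hu w hw) (QQ G u) (htyp u (hft hu)).2.1 (hQA u (hft hu)) hw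
      (htyp u (hft hu)).2.2
  -- a full `u` outside a clique `K` gives a disjoint clique
  have hdisjQ : ∀ u ∈ Ful G, ∀ K : Finset W, K.card = 102 → Disjoint K A →
      (∀ x ∈ K, ∀ y ∈ K, x ≠ y → G.Adj x y) → u ∉ K → Disjoint (QQ G u) K := by
    intro u hu K hK hKA hKc huK
    rw [Finset.disjoint_left]
    intro w hw hwK
    apply huK
    rw [hclq w (hQtyp u hu w hw) K hK hKA hwK hKc, ← hQeq u hu w hw]
    exact hself u
  -- every vertex outside `A` is joined to `A` and lies in a clique of size 102 outside `A`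
  have hz : ∀ z, z ∉ A → (∀ a ∈ A, G.Adj a z) ∧ ∃ K : Finset W, K.card = 102 ∧ z ∈ K ∧ Disjoint K A ∧
      (∀ x ∈ K, ∀ y ∈ K, x ≠ y → G.Adj x y) := by
    intro z hzA
    by_cases hzQ : z ∈ QQ G u0
    · have hzt := hQtyp u0 hu0 z hzQ
      refine ⟨?_, QQ G u0, (htyp u0 hu0t).2.1, hzQ, hQA u0 hu0t, (htyp u0 hu0t).2.2⟩
      intro a ha
      rw [← hAeq z hzt, mem_inter, SimpleGraph.mem_neighborFinset] at ha
      exact ha.1.symm
    · have hne : u0 ≠ z := fun h => hzQ (h ▸ hself u0)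
      have hnadj : ¬ G.Adj u0 z := by
        intro h
        rcases hnb u0 hu0t z h with h1 | h1
        · exact hzA h1
        · exact hzQ h1
      have hcap : G.neighborFinset u0 ∩ G.neighborFinset z ⊆ A := by
        intro w hw
        rw [mem_inter, SimpleGraph.mem_neighborFinset, SimpleGraph.mem_neighborFinset] at hw
        rcases hnb u0 hu0t w hw.1 with h1 | h1
        · exact h1
        · exfalso
          rcases hnb w (hQtyp u0 hu0 w h1) z hw.2.symm with h2 | h2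
          · exact hzA h2
          · rw [← hQeq u0 hu0 w h1] at h2
            exact hzQ h2
      have hcc := Finset.card_le_card hcap
      rcases local_pair G hG hne hnadj with h6 | ⟨A', K, K', hA', hAs, hAc', hK, huK, hKA, hKc,
        hK', hzK', hK'A, hK'c⟩
      · have := (htyp u0 hu0t).1
        omega
      · have hAA : A' = A := Finset.eq_of_subset_of_card_le (hAs.trans hcap) (by omega)
        refine ⟨?_, K', hK', hzK', hAA ▸ hK'A, hK'c⟩
        intro a ha
        rw [← hAA] at ha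
        have := (mem_inter.1 (hAs ha)).2
        rw [SimpleGraph.mem_neighborFinset] at this
        exact this.symm
  have hAall : ∀ x ∈ A, ∀ y, x ≠ y → G.Adj x y := by
    intro x hx y hxy
    by_cases hy : y ∈ A
    · exact hAq x hx y hy hxy
    · exact (hz y hy).1 x hx
  -- a full vertex outside a small set
  have hout : ∀ F : Finset W, F.card ≤ 1000 → ∃ u ∈ Ful G, u ∉ F := by
    intro F hF
    by_contra h
    push Not at h
    have := Finset.card_le_card (fun u hu => h u hu : Ful G ⊆ F)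
    omega
  -- two different cliques outside `A` are disjoint
  have hdisjK : ∀ K1 K2 : Finset W, K1.card = 102 → K2.card = 102 → Disjoint K1 A → Disjoint K2 A →
      (∀ x ∈ K1, ∀ y ∈ K1, x ≠ y → G.Adj x y) → (∀ x ∈ K2, ∀ y ∈ K2, x ≠ y → G.Adj x y) →
      K1 ≠ K2 → Disjoint K1 K2 := by
    intro K1 K2 hK1 hK2 hK1A hK2A hK1c hK2c hne
    by_contra hnd
    rw [Finset.not_disjoint_iff_nonempty_inter] at hnd
    obtain ⟨u1, hu1, hu1n⟩ := hout (K1 ∪ K2) (by
      have := Finset.card_union_le K1 K2; omega)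
    rw [mem_union, not_or] at hu1n
    have hQ1 := htyp u1 (hft hu1)
    have hQ1A := hQA u1 (hft hu1)
    obtain ⟨u2, hu2, hu2n⟩ := hout (K1 ∪ K2 ∪ QQ G u1) (by
      have := Finset.card_union_le K1 K2
      have := Finset.card_union_le (K1 ∪ K2) (QQ G u1); omega)
    rw [mem_union, mem_union, not_or, not_or] at hu2n
    have hQ2 := htyp u2 (hft hu2)
    have hQ2A := hQA u2 (hft hu2)
    obtain ⟨u3, hu3, hu3n⟩ := hout (K1 ∪ K2 ∪ QQ G u1 ∪ QQ G u2) (by
      have := Finset.card_union_le K1 K2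
      have := Finset.card_union_le (K1 ∪ K2) (QQ G u1)
      have := Finset.card_union_le (K1 ∪ K2 ∪ QQ G u1) (QQ G u2); omega)
    rw [mem_union, mem_union, mem_union, not_or, not_or, not_or] at hu3n
    have hQ3 := htyp u3 (hft hu3)
    have hQ3A := hQA u3 (hft hu3)
    obtain ⟨u4, hu4, hu4n⟩ := hout (K1 ∪ K2 ∪ QQ G u1 ∪ QQ G u2 ∪ QQ G u3) (by
      have := Finset.card_union_le K1 K2
      have := Finset.card_union_le (K1 ∪ K2) (QQ G u1)
      have := Finset.card_union_le (K1 ∪ K2 ∪ QQ G u1) (QQ G u2)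
      have := Finset.card_union_le (K1 ∪ K2 ∪ QQ G u1 ∪ QQ G u2) (QQ G u3); omega)
    rw [mem_union, mem_union, mem_union, mem_union, not_or, not_or, not_or, not_or] at hu4n
    have hQ4 := htyp u4 (hft hu4)
    have hQ4A := hQA u4 (hft hu4)
    apply hG.free
    exact contains_of_cliques A K1 K2 (QQ G u1) (QQ G u2) (QQ G u3) (QQ G u4) hAc hAall hK1 hK2
      hK1c hK2c hK1A hK2A hne hnd hQ1.2.1 hQ2.2.1 hQ3.2.1 hQ4.2.1 hQ1.2.2 hQ2.2.2 hQ3.2.2 hQ4.2.2
      hQ1A hQ2A hQ3A hQ4A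
      (hdisjQ u1 hu1 K1 hK1 hK1A hK1c hu1n.1) (hdisjQ u1 hu1 K2 hK2 hK2A hK2c hu1n.2)
      (hdisjQ u2 hu2 K1 hK1 hK1A hK1c hu2n.1.1) (hdisjQ u2 hu2 K2 hK2 hK2A hK2c hu2n.1.2)
      (hdisjQ u3 hu3 K1 hK1 hK1A hK1c hu3n.1.1.1) (hdisjQ u3 hu3 K2 hK2 hK2A hK2c hu3n.1.1.2)
      (hdisjQ u4 hu4 K1 hK1 hK1A hK1c hu4n.1.1.1.1) (hdisjQ u4 hu4 K2 hK2 hK2A hK2c hu4n.1.1.1.2)
      (hdisjQ u2 hu2 _ hQ1.2.1 hQ1A hQ1.2.2 hu2n.2).symm
      (hdisjQ u3 hu3 _ hQ1.2.1 hQ1A hQ1.2.2 hu3n.1.2).symm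
      (hdisjQ u4 hu4 _ hQ1.2.1 hQ1A hQ1.2.2 hu4n.1.1.2).symm
      (hdisjQ u3 hu3 _ hQ2.2.1 hQ2A hQ2.2.2 hu3n.2).symm
      (hdisjQ u4 hu4 _ hQ2.2.1 hQ2A hQ2.2.2 hu4n.1.2).symm
      (hdisjQ u4 hu4 _ hQ3.2.1 hQ3A hQ3.2.2 hu4n.2).symm
  -- the partition
  classical
  let 𝒦 : Finset (Finset W) := (univ : Finset (Finset W)).filter (fun K => K.card = 102 ∧ Disjoint K A ∧
    (∀ x ∈ K, ∀ y ∈ K, x ≠ y → G.Adj x y))
  have hcover : univ \ A = 𝒦.biUnion id := by
    ext z
    rw [mem_sdiff, mem_biUnion]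
    constructor
    · rintro ⟨-, hzA⟩
      obtain ⟨-, K, h1, h2, h3, h4⟩ := hz z hzA
      exact ⟨K, mem_filter.2 ⟨mem_univ _, h1, h3, h4⟩, h2⟩
    · rintro ⟨K, hK, hzK⟩
      rw [mem_filter] at hK
      exact ⟨mem_univ _, fun h => Finset.disjoint_left.1 hK.2.2.1 hzK h⟩
  have hcard : (univ \ A).card = 𝒦.card * 102 := by
    rw [hcover, Finset.card_biUnion]
    · rw [Finset.sum_const_nat]
      intro K hK
      exact (mem_filter.1 hK).2.1
    · intro K1 hK1 K2 hK2 hne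
      have hK1 := mem_filter.1 (Finset.mem_coe.1 hK1)
      have hK2 := mem_filter.1 (Finset.mem_coe.1 hK2)
      change Disjoint K1 K2
      exact hdisjK K1 K2 hK1.2.1 hK2.2.1 hK1.2.2.1 hK2.2.2.1 hK1.2.2.2 hK2.2.2.2 hne
  refine ⟨𝒦.card, ?_⟩
  have h1 := Finset.card_sdiff_add_card_inter (univ : Finset W) A
  rw [Finset.univ_inter, Finset.card_univ] at h1
  omega

end Pool.Agent.J6H1.Tuza
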