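import Pool.Agent.J6H1.Tuza.Defs

/-!
# The upper bound

For `n = 16 + 102 t`, `t ≥ 5`, the join of `K_16` with `t` disjoint copies of `K_102` is
`H`-saturated; its degree sum is at most `133 n`.
-/

set_option autoImplicit false

namespace Pool.Agent.J6H1.Tuza

open Finset

/-- the join of `K_16` with disjoint copies of `K_102`, on the first `n` numbers -/
def U (n : ℕ) : SimpleGraph (Fin n) where
  Adj u v := u ≠ v ∧ (u.val < 16 ∨ v.val < 16 ∨ (u.val - 16) / 102 = (v.val - 16) / 102)
  symm := by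
    constructor
    rintro u v ⟨h1, h2⟩
    refine ⟨h1.symm, ?_⟩
    rcases h2 with h | h | h
    · exact Or.inr (Or.inl h)
    · exact Or.inl h
    · exact Or.inr (Or.inr h.symm)
  loopless := by
    constructor
    rintro u ⟨h1, -⟩
    exact h1 rfl

theorem U_adj {n : ℕ} {u v : Fin n} : (U n).Adj u v ↔
    u ≠ v ∧ (u.val < 16 ∨ v.val < 16 ∨ (u.val - 16) / 102 = (v.val - 16) / 102) := Iff.rfl

/-- the blocks -/
def Bl (n k : ℕ) : Finset (Fin n) := univ.filter (fun w => 16 ≤ w.val ∧ (w.val - 16) / 102 = k)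

/-- the hubs -/
def Hub (n : ℕ) : Finset (Fin n) := univ.filter (fun w => w.val < 16)

theorem mem_Bl {n k : ℕ} {w : Fin n} : w ∈ Bl n k ↔ 16 ≤ w.val ∧ (w.val - 16) / 102 = k := by
  simp [Bl]

theorem mem_Hub {n : ℕ} {w : Fin n} : w ∈ Hub n ↔ w.val < 16 := by
  simp [Hub]

theorem card_Bl_le (n k : ℕ) : (Bl n k).card ≤ 102 := by
  have h : (Bl n k).card ≤ (range 102).card := by
    apply Finset.card_le_card_of_injOn (fun w => (w.val - 16) % 102)
    · intro w _
      simp only [coe_range, Set.mem_Iio]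
      exact Nat.mod_lt _ (by norm_num)
    · intro w hw w' hw' h
      rw [Finset.mem_coe, mem_Bl] at hw hw'
      simp only at h
      apply Fin.ext
      have h1 := Nat.div_add_mod (w.val - 16) 102
      have h2 := Nat.div_add_mod (w'.val - 16) 102
      rw [hw.2] at h1
      rw [hw'.2] at h2
      omega
  simpa using h

theorem card_Hub_le (n : ℕ) : (Hub n).card ≤ 16 := by
  have h : (Hub n).card ≤ (range 16).card := by
    apply Finset.card_le_card_of_injOn (fun w => w.val)
    · intro w hw
      rw [Finset.mem_coe, mem_Hub] at hw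
      simpa using hw
    · intro w _ w' _ h
      exact Fin.ext h
  simpa using h

theorem le_card_Bl {n k t : ℕ} (hn : n = 16 + 102 * t) (hk : k < t) : 102 ≤ (Bl n k).card := by
  have h : (range 102).card ≤ (Bl n k).card := by
    apply Finset.card_le_card_of_injOn (fun j => if h : 16 + 102 * k + j < n then (⟨16 + 102 * k + j, h⟩ : Fin n)
      else ⟨0, by omega⟩)
    · intro j hj
      have hj : j < 102 := by simpa using hj
      have h1 : 16 + 102 * k + j < n := by
        have : 102 * (k + 1) ≤ 102 * t := Nat.mul_le_mul_left _ hk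
        omega
      simp only [h1, dif_pos, Finset.mem_coe]
      rw [mem_Bl]
      refine ⟨by simp only; omega, ?_⟩
      simp only
      omega
    · intro j hj j' hj' h
      have hj : j < 102 := by simpa using hj
      have hj' : j' < 102 := by simpa using hj'
      have h1 : 16 + 102 * k + j < n := by
        have : 102 * (k + 1) ≤ 102 * t := Nat.mul_le_mul_left _ hk
        omega
      have h2 : 16 + 102 * k + j' < n := by
        have : 102 * (k + 1) ≤ 102 * t := Nat.mul_le_mul_left _ hk
        omega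
      simp only [h1, h2, dif_pos, Fin.mk.injEq] at h
      omega
  simpa using h

theorem le_card_Hub {n t : ℕ} (hn : n = 16 + 102 * t) : 16 ≤ (Hub n).card := by
  have h : (range 16).card ≤ (Hub n).card := by
    apply Finset.card_le_card_of_injOn (fun j => if h : j < n then (⟨j, h⟩ : Fin n)
      else ⟨0, by omega⟩)
    · intro j hj
      have hj : j < 16 := by simpa using hj
      have h1 : j < n := by omega
      simp only [h1, dif_pos, Finset.mem_coe]
      rw [mem_Hub]
      exact hj
    · intro j hj j' hj' h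
      have hj : j < 16 := by simpa using hj
      have hj' : j' < 16 := by simpa using hj'
      have h1 : j < n := by omega
      have h2 : j' < n := by omega
      simpa only [h1, h2, dif_pos, Fin.mk.injEq] using h
  simpa using h

/-- `U n` does not contain `H` -/
theorem U_free (n : ℕ) : ¬ Contains (U n) := by
  rintro ⟨f, hf, hadj⟩
  -- number of vertices of class `i` which are mapped to hubs
  let h : Fin 14 → ℕ := fun i => (univ.filter (fun v : HV => v.1 = i ∧ (f v).val < 16)).card
  have hsum : ∀ l : Finset (Fin 14), ∑ i ∈ l, h i =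
      (univ.filter (fun v : HV => v.1 ∈ l ∧ (f v).val < 16)).card := by
    intro l
    rw [Finset.card_eq_sum_card_fiberwise (f := fun v : HV => v.1) (t := l)]
    · apply Finset.sum_congr rfl
      intro i hi
      apply congrArg Finset.card
      ext v
      simp only [mem_filter, mem_univ, true_and]
      constructor
      · rintro ⟨rfl, h2⟩; exact ⟨⟨hi, h2⟩, rfl⟩
      · rintro ⟨⟨-, h2⟩, h3⟩; exact ⟨h3, h2⟩
    · intro v hv
      simp only [coe_filter, mem_univ, true_and, Set.mem_ofPred_eq] at hv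
      exact hv.1
  have hwt : ∀ l : Finset (Fin 14), ∑ i ∈ l, wt i = (univ.filter (fun v : HV => v.1 ∈ l)).card := by
    intro l
    rw [card_class (fun k => k ∈ l)]
    rw [Finset.filter_univ_mem]
  have F4 : ∀ i, h i ≤ wt i := by
    intro i
    have h1 := hwt {i}
    rw [Finset.sum_singleton] at h1
    rw [h1]
    apply Finset.card_le_card
    intro v hv
    simp only [mem_filter, mem_univ, true_and, mem_singleton] at hv ⊢
    exact hv.1
  have F3 : ∑ i, h i ≤ 16 := by
    rw [hsum univ]
    calc (univ.filter (fun v : HV => v.1 ∈ (univ : Finset (Fin 14)) ∧ (f v).val < 16)).card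
        = ((univ.filter (fun v : HV => v.1 ∈ (univ : Finset (Fin 14)) ∧ (f v).val < 16)).image f).card :=
          (Finset.card_image_of_injective _ hf).symm
      _ ≤ (Hub n).card := by
          apply Finset.card_le_card
          intro w hw
          rw [mem_image] at hw
          obtain ⟨v, hv, rfl⟩ := hw
          rw [mem_Hub]
          simpa using hv
      _ ≤ 16 := card_Hub_le n
  -- block numbers
  have hnh : ∀ i, h i < wt i → ∃ v : HV, v.1 = i ∧ 16 ≤ (f v).val := by
    intro i hi
    by_contra hc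
    push Not at hc
    have h1 : wt i ≤ h i := by
      have h2 := hwt {i}
      rw [Finset.sum_singleton] at h2
      rw [h2]
      apply Finset.card_le_card
      intro v hv
      simp only [mem_filter, mem_univ, true_and, mem_singleton] at hv ⊢
      exact ⟨hv, hc v hv⟩
    omega
  have hcex : ∃ c : Fin 14 → ℕ, ∀ i, ∀ v : HV, v.1 = i → 16 ≤ (f v).val → ((f v).val - 16) / 102 = c i := by
    have h1 : ∀ i, ∃ c, ∀ v : HV, v.1 = i → 16 ≤ (f v).val → ((f v).val - 16) / 102 = c := by
      intro i
      by_cases h2 : ∃ v : HV, v.1 = i ∧ 16 ≤ (f v).val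
      · obtain ⟨v, h3, h4⟩ := h2
        refine ⟨((f v).val - 16) / 102, ?_⟩
        intro w h5 h6
        by_cases hvw : w = v
        · rw [hvw]
        · have h7 := (U_adj.1 (hadj w v ⟨hvw, by rw [h5, h3]; exact rel_refl i⟩)).2
          rcases h7 with h7 | h7 | h7
          · omega
          · omega
          · exact h7
      · push Not at h2
        exact ⟨0, fun v h3 h4 => absurd (h2 v h3) (by omega)⟩
    choose c hc using h1
    exact ⟨c, hc⟩
  obtain ⟨c, hc⟩ := hcex
  have F1 : ∀ i j, rel i j = true → h i < wt i → h j < wt j → c i = c j := by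
    intro i j hij hi hj
    by_cases hne : i = j
    · rw [hne]
    obtain ⟨v, hv1, hv2⟩ := hnh i hi
    obtain ⟨w, hw1, hw2⟩ := hnh j hj
    rw [← hc i v hv1 hv2, ← hc j w hw1 hw2]
    have h7 := (U_adj.1 (hadj v w ⟨fun h => hne (by rw [← hv1, ← hw1, h]), by rw [hv1, hw1]; exact hij⟩)).2
    rcases h7 with h7 | h7 | h7
    · omega
    · omega
    · exact h7
  have F2 : ∀ l : Finset (Fin 14), ∀ c0 : ℕ, (∀ i ∈ l, h i < wt i → c i = c0) →
      ∑ i ∈ l, wt i ≤ 102 + ∑ i ∈ l, h i := by
    intro l c0 hl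
    rw [hwt l, hsum l]
    have h1 : (univ.filter (fun v : HV => v.1 ∈ l)).card =
        (univ.filter (fun v : HV => v.1 ∈ l ∧ (f v).val < 16)).card +
        (univ.filter (fun v : HV => v.1 ∈ l ∧ ¬ (f v).val < 16)).card := by
      rw [← Finset.filter_filter, ← Finset.filter_filter, Finset.card_filter_add_card_filter_not]
    have h2 : (univ.filter (fun v : HV => v.1 ∈ l ∧ ¬ (f v).val < 16)).card ≤ 102 := by
      calc (univ.filter (fun v : HV => v.1 ∈ l ∧ ¬ (f v).val < 16)).card
          = ((univ.filter (fun v : HV => v.1 ∈ l ∧ ¬ (f v).val < 16)).image f).card :=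
            (Finset.card_image_of_injective _ hf).symm
        _ ≤ (Bl n c0).card := by
            apply Finset.card_le_card
            intro w hw
            rw [mem_image] at hw
            obtain ⟨v, hv, rfl⟩ := hw
            rw [mem_filter] at hv
            have h3 : 16 ≤ (f v).val := by omega
            rw [mem_Bl]
            refine ⟨h3, ?_⟩
            rw [hc v.1 v rfl h3]
            apply hl v.1 hv.2.1
            -- the class of `v` has a vertex which is not mapped to a hub
            have h4 := hwt {v.1}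
            rw [Finset.sum_singleton] at h4
            rw [h4]
            apply Finset.card_lt_card
            rw [Finset.ssubset_iff_of_subset]
            · exact ⟨v, by simp, by simp; omega⟩
            · intro v' hv'
              simp only [mem_filter, mem_univ, true_and, mem_singleton] at hv' ⊢
              exact hv'.1
        _ ≤ 102 := card_Bl_le n c0
    omega
  -- evaluation of sums
  have e14 : ∑ i, h i = h 0 + h 1 + h 2 + h 3 + h 4 + h 5 + h 6 + h 7 + h 8 + h 9 + h 10 + h 11 + h 12 +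
      h 13 := by
    have hu : (univ : Finset (Fin 14)) = {0, 1, 2, 3, 4, 5, 6, 7, 8, 9, 10, 11, 12, 13} := by decide
    rw [hu]
    repeat rw [Finset.sum_insert (by decide)]
    rw [Finset.sum_singleton]
    ring
  rw [e14] at F3
  have f0 := F4 0
  have f1 := F4 1
  have f2 := F4 2
  have f3 := F4 3
  have f4 := F4 4
  have f5 := F4 5
  have f6 := F4 6
  have f7 := F4 7
  have f8 := F4 8
  have f9 := F4 9
  have f10 := F4 10
  have f11 := F4 11
  have f12 := F4 12
  have f13 := F4 13
  have w0 : wt 0 = 8 := rfl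
  have w1 : wt 1 = 1 := rfl
  have w2 : wt 2 = 7 := rfl
  have w3 : wt 3 = 1 := rfl
  have w4 : wt 4 = 3 := rfl
  have w5 : wt 5 = 98 := rfl
  have w6 : wt 6 = 1 := rfl
  have w7 : wt 7 = 3 := rfl
  have w8 : wt 8 = 98 := rfl
  have w9 : wt 9 = 27 := rfl
  have w10 : wt 10 = 34 := rfl
  have w11 : wt 11 = 34 := rfl
  have w12 : wt 12 = 94 := rfl
  have w13 : wt 13 = 68 := rfl
  have G1 : ∀ c0, (∀ i ∈ ({3, 4, 5, 6, 7, 8} : Finset (Fin 14)), h i < wt i → c i = c0) →
      204 ≤ 102 + (h 3 + h 4 + h 5 + h 6 + h 7 + h 8) := by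
    intro c0 hc0
    have h1 := F2 _ c0 hc0
    repeat rw [Finset.sum_insert (by decide)] at h1
    rw [Finset.sum_singleton] at h1
    repeat rw [Finset.sum_insert (by decide)] at h1
    rw [Finset.sum_singleton] at h1
    omega
  have G2 : ∀ c0, (∀ i ∈ ({0, 1, 2, 3, 4, 5} : Finset (Fin 14)), h i < wt i → c i = c0) →
      118 ≤ 102 + (h 0 + h 1 + h 2 + h 3 + h 4 + h 5) := by
    intro c0 hc0
    have h1 := F2 _ c0 hc0
    repeat rw [Finset.sum_insert (by decide)] at h1
    rw [Finset.sum_singleton] at h1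
    repeat rw [Finset.sum_insert (by decide)] at h1
    rw [Finset.sum_singleton] at h1
    omega
  have G3 : ∀ c0, (∀ i ∈ ({0, 1, 2, 6, 7, 8} : Finset (Fin 14)), h i < wt i → c i = c0) →
      118 ≤ 102 + (h 0 + h 1 + h 2 + h 6 + h 7 + h 8) := by
    intro c0 hc0
    have h1 := F2 _ c0 hc0
    repeat rw [Finset.sum_insert (by decide)] at h1
    rw [Finset.sum_singleton] at h1
    repeat rw [Finset.sum_insert (by decide)] at h1
    rw [Finset.sum_singleton] at h1
    omega
  have G4 : ∀ c0, (∀ i ∈ ({0, 1, 2, 9, 10, 11} : Finset (Fin 14)), h i < wt i → c i = c0) →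
      111 ≤ 102 + (h 0 + h 1 + h 2 + h 9 + h 10 + h 11) := by
    intro c0 hc0
    have h1 := F2 _ c0 hc0
    repeat rw [Finset.sum_insert (by decide)] at h1
    rw [Finset.sum_singleton] at h1
    repeat rw [Finset.sum_insert (by decide)] at h1
    rw [Finset.sum_singleton] at h1
    omega
  have G5 : ∀ c0, (∀ i ∈ ({1, 2, 12, 13} : Finset (Fin 14)), h i < wt i → c i = c0) →
      170 ≤ 102 + (h 1 + h 2 + h 12 + h 13) := by
    intro c0 hc0
    have h1 := F2 _ c0 hc0
    repeat rw [Finset.sum_insert (by decide)] at h1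
    rw [Finset.sum_singleton] at h1
    repeat rw [Finset.sum_insert (by decide)] at h1
    rw [Finset.sum_singleton] at h1
    omega
  have G6 : ∀ c0, (∀ i ∈ ({0, 1, 2, 3, 4, 5, 6, 7, 8} : Finset (Fin 14)), h i < wt i → c i = c0) →
      220 ≤ 102 + (h 0 + h 1 + h 2 + h 3 + h 4 + h 5 + h 6 + h 7 + h 8) := by
    intro c0 hc0
    have h1 := F2 _ c0 hc0
    repeat rw [Finset.sum_insert (by decide)] at h1
    rw [Finset.sum_singleton] at h1
    repeat rw [Finset.sum_insert (by decide)] at h1
    rw [Finset.sum_singleton] at h1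
    omega
  -- if `i0` is a class of `S` which is not completely mapped to hubs
  have conn : ∀ i0, h i0 < wt i0 → ∀ l : Finset (Fin 14), (∀ i ∈ l, rel i i0 = true) →
      ∀ i ∈ l, h i < wt i → c i = c i0 := by
    intro i0 hi0 l hl i hi hi'
    exact F1 i i0 (hl i hi) hi' hi0
  by_cases hS : h 0 < wt 0 ∨ h 1 < wt 1 ∨ h 2 < wt 2
  · obtain ⟨i0, hi0m, hi0⟩ : ∃ i0 ∈ ({0, 1, 2} : Finset (Fin 14)), h i0 < wt i0 := by
      rcases hS with h1 | h1 | h1
      · exact ⟨0, by decide, h1⟩
      · exact ⟨1, by decide, h1⟩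
      · exact ⟨2, by decide, h1⟩
    have hsix : h 3 + h 4 + h 6 + h 7 ≤ 8 := by omega
    by_cases hX1 : h 3 < wt 3 ∨ h 4 < wt 4
    · -- the classes `0..5` are in one block
      obtain ⟨j0, hj0m, hj0⟩ : ∃ j0 ∈ ({3, 4} : Finset (Fin 14)), h j0 < wt j0 := by
        rcases hX1 with h1 | h1
        · exact ⟨3, by decide, h1⟩
        · exact ⟨4, by decide, h1⟩
      have hr : ∀ j ∈ ({3, 4} : Finset (Fin 14)), ∀ i ∈ ({0, 1, 2, 3, 4, 5} : Finset (Fin 14)),
        rel i j = true := by decide
      have hcc := conn j0 hj0 _ (hr j0 hj0m)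
      have g2 := G2 (c j0) hcc
      have hz : h 6 = 0 ∧ h 7 = 0 ∧ h 8 = 0 := by omega
      have hsub : ∀ i ∈ ({0, 1, 2} : Finset (Fin 14)), i ∈ ({0, 1, 2, 3, 4, 5} : Finset (Fin 14)) := by
        decide
      have hci0 : c i0 = c j0 := hcc i0 (hsub i0 hi0m) hi0
      have hr2 : ∀ i ∈ ({0, 1, 2} : Finset (Fin 14)), rel i 6 = true ∧ rel i 7 = true := by decide
      have hc6 : c 6 = c j0 := by
        rw [← hci0]
        exact (F1 i0 6 (hr2 i0 hi0m).1 hi0 (by omega)).symm
      have hc7 : c 7 = c j0 := by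
        rw [← hci0]
        exact (F1 i0 7 (hr2 i0 hi0m).2 hi0 (by omega)).symm
      have hc8 : c 8 = c j0 := by
        rw [← hc7]
        exact (F1 7 8 (by decide) (by omega) (by omega)).symm
      have g6 := G6 (c j0) (by
        intro i hi hi'
        simp only [mem_insert, mem_singleton] at hi
        rcases hi with rfl | rfl | rfl | rfl | rfl | rfl | rfl | rfl | rfl
        · exact hcc 0 (by decide) hi'
        · exact hcc 1 (by decide) hi'
        · exact hcc 2 (by decide) hi'
        · exact hcc 3 (by decide) hi'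
        · exact hcc 4 (by decide) hi'
        · exact hcc 5 (by decide) hi'
        · exact hc6
        · exact hc7
        · exact hc8)
      omega
    · by_cases hX2 : h 6 < wt 6 ∨ h 7 < wt 7
      · obtain ⟨j0, hj0m, hj0⟩ : ∃ j0 ∈ ({6, 7} : Finset (Fin 14)), h j0 < wt j0 := by
          rcases hX2 with h1 | h1
          · exact ⟨6, by decide, h1⟩
          · exact ⟨7, by decide, h1⟩
        have hr : ∀ j ∈ ({6, 7} : Finset (Fin 14)), ∀ i ∈ ({0, 1, 2, 6, 7, 8} : Finset (Fin 14)),
          rel i j = true := by decide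
        have hcc := conn j0 hj0 _ (hr j0 hj0m)
        have g3 := G3 (c j0) hcc
        omega
      · -- `X1` and `X2` are mapped to hubs
        by_cases h0 : h 0 < wt 0
        · have hr : ∀ i ∈ ({0, 1, 2, 9, 10, 11} : Finset (Fin 14)), rel i 0 = true := by decide
          have g4 := G4 (c 0) (conn 0 h0 _ hr)
          omega
        · have hr : ∀ i ∈ ({1, 2, 12, 13} : Finset (Fin 14)), rel i 1 = true := by decide
          have g5 := G5 (c 1) (conn 1 (by omega) _ hr)
          omega
  · -- all of `S` is mapped to hubs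
    have hz : h 3 = 0 ∧ h 4 = 0 ∧ h 5 = 0 ∧ h 6 = 0 ∧ h 7 = 0 ∧ h 8 = 0 := by omega
    have hr : ∀ i ∈ ({3, 4, 5} : Finset (Fin 14)), rel i 3 = true := by decide
    have hr' : ∀ i ∈ ({6, 7, 8} : Finset (Fin 14)), rel i 6 = true := by decide
    have h36 : c 3 = c 6 := F1 3 6 (by decide) (by omega) (by omega)
    have g1 := G1 (c 3) (by
      intro i hi hi'
      have h3 : i ∈ ({3, 4, 5} : Finset (Fin 14)) ∨ i ∈ ({6, 7, 8} : Finset (Fin 14)) := by
        revert hi
        clear hi'
        revert i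
        decide
      rcases h3 with h3 | h3
      · exact conn 3 (by omega) _ hr i h3 hi'
      · rw [h36]; exact conn 6 (by omega) _ hr' i h3 hi')
    omega

/-- adding an edge to `U n` gives a graph which contains `H` -/
theorem U_sat {n t : ℕ} (hn : n = 16 + 102 * t) (ht : 5 ≤ t) (u v : Fin n) (huv : u ≠ v)
    (hadj : ¬ (U n).Adj u v) : ∃ f : HV → Fin n, Function.Injective f ∧
      ∀ a b, H.Adj a b → (U n).Adj (f a) (f b) ∨ (f a = u ∧ f b = v) ∨ (f a = v ∧ f b = u) := by
  have h1 : ¬ u.val < 16 ∧ ¬ v.val < 16 ∧ (u.val - 16) / 102 ≠ (v.val - 16) / 102 := by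
    rw [U_adj] at hadj
    push Not at hadj
    have := hadj huv
    omega
  obtain ⟨hu, hv, hk⟩ := h1
  obtain ⟨k1, hk1⟩ : ∃ k, k = (u.val - 16) / 102 := ⟨_, rfl⟩
  obtain ⟨k2, hk2⟩ : ∃ k, k = (v.val - 16) / 102 := ⟨_, rfl⟩
  have hk1t : k1 < t := by
    have := u.isLt
    omega
  have hk2t : k2 < t := by
    have := v.isLt
    omega
  have hk12 : k1 ≠ k2 := by omega
  obtain ⟨k3, k4, k5, hk3, hk4, hk5, h34, h35, h45⟩ : ∃ a b c, a ∈ (range t).erase k1 \ {k2} ∧
      b ∈ (range t).erase k1 \ {k2} ∧ c ∈ (range t).erase k1 \ {k2} ∧ a ≠ b ∧ a ≠ c ∧ b ≠ c := by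
    have h2 : 2 < ((range t).erase k1 \ {k2}).card := by
      have h3 := Finset.card_erase_add_one (Finset.mem_range.2 hk1t)
      have h4 := Finset.card_sdiff_add_card_inter ((range t).erase k1) {k2}
      have h5 : ((range t).erase k1 ∩ {k2}).card ≤ 1 := by
        calc _ ≤ ({k2} : Finset ℕ).card := Finset.card_le_card inter_subset_right
          _ = 1 := by simp
      rw [Finset.card_range] at h3
      omega
    obtain ⟨a, b, c, h5⟩ := Finset.two_lt_card_iff.1 h2
    exact ⟨a, b, c, h5.1, h5.2.1, h5.2.2.1, h5.2.2.2.1, h5.2.2.2.2.1, h5.2.2.2.2.2⟩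
  simp only [mem_sdiff, mem_erase, mem_range, mem_singleton] at hk3 hk4 hk5
  have huB : u ∈ Bl n k1 := mem_Bl.2 ⟨by omega, hk1.symm⟩
  have hvB : v ∈ Bl n k2 := mem_Bl.2 ⟨by omega, hk2.symm⟩
  have hcu := Finset.card_erase_add_one huB
  have hcv := Finset.card_erase_add_one hvB
  have hc1 := le_card_Bl hn hk1t
  have hc2 := le_card_Bl hn hk2t
  have hc3 := le_card_Bl hn hk3.1.2
  have hc4 := le_card_Bl hn hk4.1.2
  have hc5 := le_card_Bl hn hk5.1.2
  have hcH := le_card_Hub hn
  let C : Fin 8 → Finset (Fin n) :=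
    ![Hub n, {u}, (Bl n k1).erase u, {v}, (Bl n k2).erase v, Bl n k3, Bl n k4, Bl n k5]
  -- the block of a container
  let β : Fin 8 → ℕ := ![0, k1, k1, k2, k2, k3, k4, k5]
  have hβ : ∀ i : Fin 8, i ≠ 0 → ∀ w ∈ C i, w ∈ Bl n (β i) := by
    intro i hi w hw
    fin_cases i
    · exact absurd rfl hi
    · exact (Finset.mem_singleton.1 hw) ▸ huB
    · exact Finset.erase_subset _ _ hw
    · exact (Finset.mem_singleton.1 hw) ▸ hvB
    · exact Finset.erase_subset _ _ hw
    · exact hw
    · exact hw
    · exact hw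
  have hβne : ∀ i j : Fin 8, i < j → i ≠ 0 → β i = β j → (i = 1 ∧ j = 2) ∨ (i = 3 ∧ j = 4) := by
    intro i j hij hi h
    fin_cases i <;> fin_cases j <;> first
      | exact absurd hij (by decide)
      | exact absurd rfl hi
      | exact Or.inl ⟨rfl, rfl⟩
      | exact Or.inr ⟨rfl, rfl⟩
      | (exfalso; simp [β] at h; omega)
  have hdis : ∀ i j : Fin 8, i < j → Disjoint (C i) (C j) := by
    intro i j hij
    rw [Finset.disjoint_left]
    intro w hw hw'
    by_cases hi : i = 0
    · subst hi
      have h2 := (mem_Bl.1 (hβ j (ne_of_gt hij) w hw')).1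
      have h3 : w.val < 16 := mem_Hub.1 hw
      omega
    · have hj : j ≠ 0 := fun h => by rw [h] at hij; exact absurd hij (Fin.not_lt_zero _)
      have h2 := (mem_Bl.1 (hβ i hi w hw)).2
      have h3 := (mem_Bl.1 (hβ j hj w hw')).2
      rcases hβne i j hij hi (h2.symm.trans h3) with ⟨rfl, rfl⟩ | ⟨rfl, rfl⟩
      · have h4 : w = u := Finset.mem_singleton.1 hw
        rw [h4] at hw'
        exact Finset.notMem_erase u _ hw'
      · have h4 : w = v := Finset.mem_singleton.1 hw
        rw [h4] at hw'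
        exact Finset.notMem_erase v _ hw'
  let α : Fin 14 → Fin 8 := ![0, 0, 0, 1, 2, 2, 3, 4, 4, 5, 5, 5, 6, 7]
  have hmain := container (fun x y => (U n).Adj x y ∨ (x = u ∧ y = v) ∨ (x = v ∧ y = u)) α C
  apply hmain
  · intro i j hij
    rcases lt_or_gt_of_ne hij with h | h
    · exact hdis _ _ h
    · exact (hdis _ _ h).symm
  · have hcard : ∀ j : Fin 8, (![16, 1, 101, 1, 101, 95, 94, 68] : Fin 8 → ℕ) j ≤ (C j).card := by
      intro j
      fin_cases j
      · change 16 ≤ (Hub n).card; omega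
      · change 1 ≤ ({u} : Finset (Fin n)).card; simp
      · change 101 ≤ ((Bl n k1).erase u).card; omega
      · change 1 ≤ ({v} : Finset (Fin n)).card; simp
      · change 101 ≤ ((Bl n k2).erase v).card; omega
      · change 95 ≤ (Bl n k3).card; omega
      · change 94 ≤ (Bl n k4).card; omega
      · change 68 ≤ (Bl n k5).card; omega
    have hsum : ∀ i : Fin 14, ∑ k ∈ univ.filter (fun k => α k = α i), wt k ≤
        (![16, 1, 101, 1, 101, 95, 94, 68] : Fin 8 → ℕ) (α i) := by
      decide
    intro i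
    exact (hsum i).trans (hcard _)
  · have hcomp : ∀ i j : Fin 14, rel i j = true → α i = 0 ∨ α j = 0 ∨ α i = α j ∨
        (α i = 1 ∧ α j = 2) ∨ (α i = 2 ∧ α j = 1) ∨ (α i = 3 ∧ α j = 4) ∨ (α i = 4 ∧ α j = 3) ∨
        (α i = 1 ∧ α j = 3) ∨ (α i = 3 ∧ α j = 1) := by
      decide
    have hsame : ∀ i j : Fin 8, i ≠ 0 → j ≠ 0 → β i = β j → ∀ x ∈ C i, ∀ y ∈ C j, x ≠ y → (U n).Adj x y := by
      intro i j hi hj hij x hx y hy hxy
      rw [U_adj]
      refine ⟨hxy, Or.inr (Or.inr ?_)⟩
      rw [(mem_Bl.1 (hβ i hi x hx)).2, (mem_Bl.1 (hβ j hj y hy)).2, hij]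
    intro i j hij x hx y hy hxy
    rcases hcomp i j hij with h | h | h | ⟨h1, h2⟩ | ⟨h1, h2⟩ | ⟨h1, h2⟩ | ⟨h1, h2⟩ | ⟨h1, h2⟩ | ⟨h1, h2⟩
    · rw [h] at hx
      exact Or.inl (U_adj.2 ⟨hxy, Or.inl (mem_Hub.1 hx)⟩)
    · rw [h] at hy
      exact Or.inl (U_adj.2 ⟨hxy, Or.inr (Or.inl (mem_Hub.1 hy))⟩)
    · by_cases h0 : α i = 0
      · rw [h0] at hx
        exact Or.inl (U_adj.2 ⟨hxy, Or.inl (mem_Hub.1 hx)⟩)
      · exact Or.inl (hsame (α i) (α j) h0 (h ▸ h0) (by rw [h]) x hx y hy hxy)
    · rw [h1] at hx; rw [h2] at hy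
      exact Or.inl (hsame 1 2 (by decide) (by decide) rfl x hx y hy hxy)
    · rw [h1] at hx; rw [h2] at hy
      exact Or.inl (hsame 2 1 (by decide) (by decide) rfl x hx y hy hxy)
    · rw [h1] at hx; rw [h2] at hy
      exact Or.inl (hsame 3 4 (by decide) (by decide) rfl x hx y hy hxy)
    · rw [h1] at hx; rw [h2] at hy
      exact Or.inl (hsame 4 3 (by decide) (by decide) rfl x hx y hy hxy)
    · rw [h1] at hx; rw [h2] at hy
      exact Or.inr (Or.inl ⟨Finset.mem_singleton.1 hx, Finset.mem_singleton.1 hy⟩)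
    · rw [h1] at hx; rw [h2] at hy
      exact Or.inr (Or.inr ⟨Finset.mem_singleton.1 hx, Finset.mem_singleton.1 hy⟩)

/-- the degree sum of `U n` -/
theorem U_degree_sum (n : ℕ) [DecidableRel (U n).Adj] :
    ∑ v, ((U n).neighborFinset v).card ≤ 133 * n := by
  have h1 : ∀ v ∈ Hub n, ((U n).neighborFinset v).card ≤ n := by
    intro v _
    calc _ ≤ (univ : Finset (Fin n)).card := Finset.card_le_card (subset_univ _)
      _ = n := by simp
  have h2 : ∀ v ∈ (univ : Finset (Fin n)) \ Hub n, ((U n).neighborFinset v).card ≤ 117 := by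
    intro v hv
    rw [mem_sdiff, mem_Hub] at hv
    have hvB : v ∈ Bl n ((v.val - 16) / 102) := mem_Bl.2 ⟨by omega, rfl⟩
    have h3 : (U n).neighborFinset v ⊆ Hub n ∪ (Bl n ((v.val - 16) / 102)).erase v := by
      intro w hw
      rw [SimpleGraph.mem_neighborFinset, U_adj] at hw
      rw [mem_union, mem_Hub, mem_erase, mem_Bl]
      by_cases hw16 : w.val < 16
      · exact Or.inl hw16
      · right
        refine ⟨hw.1.symm, by omega, ?_⟩
        rcases hw.2 with h4 | h4 | h4
        · exact absurd h4 hv.2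
        · exact absurd h4 hw16
        · exact h4.symm
    have h4 := Finset.card_le_card h3
    have h5 := Finset.card_union_le (Hub n) ((Bl n ((v.val - 16) / 102)).erase v)
    have h6 := Finset.card_erase_add_one hvB
    have h7 := card_Bl_le n ((v.val - 16) / 102)
    have h8 := card_Hub_le n
    omega
  have h3 : ∑ v, ((U n).neighborFinset v).card =
      ∑ v ∈ (univ : Finset (Fin n)) \ Hub n, ((U n).neighborFinset v).card +
        ∑ v ∈ Hub n, ((U n).neighborFinset v).card :=
    (Finset.sum_sdiff (subset_univ _)).symm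
  have h4 : ∑ v ∈ Hub n, ((U n).neighborFinset v).card ≤ (Hub n).card * n :=
    Finset.sum_le_card_nsmul _ _ _ h1
  have h5 : ∑ v ∈ (univ : Finset (Fin n)) \ Hub n, ((U n).neighborFinset v).card ≤
      ((univ : Finset (Fin n)) \ Hub n).card * 117 := Finset.sum_le_card_nsmul _ _ _ h2
  have h6 : ((univ : Finset (Fin n)) \ Hub n).card ≤ n := by
    calc _ ≤ (univ : Finset (Fin n)).card := Finset.card_le_card (subset_univ _)
      _ = n := by simp
  have h7 := card_Hub_le n
  have h8 : (Hub n).card * n ≤ 16 * n := Nat.mul_le_mul_right _ h7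
  omega

end Pool.Agent.J6H1.Tuza
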